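import Mathlib

set_option autoImplicit false

namespace Pool.Agent.MP_d19b84_nt.H13

open Finset

/-- Piecewise syndetic sets, with the long windows lying within a bounded factor of large
members of `S`. -/
def PS (S B : Set ℕ) : Prop :=
  ∃ g c : ℕ, ∀ L : ℕ, ∃ N ∈ S, L ≤ N ∧ ∃ t : ℕ, N ≤ c * t ∧ t + L ≤ c * N ∧
    ∀ s : ℕ, t ≤ s → s ≤ t + L → ∃ d : ℕ, d ≤ g ∧ s + d ∈ B

variable {S : Set ℕ}

theorem PS.mono {A B : Set ℕ} (h : PS S A) (hAB : A ⊆ B) : PS S B := by
  obtain ⟨g, c, hg⟩ := h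
  refine ⟨g, c, fun L => ?_⟩
  obtain ⟨N, hN, hL, t, h1, h2, ht⟩ := hg L
  refine ⟨N, hN, hL, t, h1, h2, fun s h1 h2 => ?_⟩
  obtain ⟨d, hd, hm⟩ := ht s h1 h2
  exact ⟨d, hd, hAB hm⟩

theorem PS.nonempty {A : Set ℕ} (h : PS S A) : A.Nonempty := by
  obtain ⟨g, c, hg⟩ := h
  obtain ⟨N, -, -, t, -, -, ht⟩ := hg 0
  obtain ⟨d, -, hm⟩ := ht t le_rfl (by omega)
  exact ⟨_, hm⟩

theorem ps_univ (hS : S.Infinite) : PS S Set.univ := by
  refine ⟨0, 2, fun L => ?_⟩
  obtain ⟨N, hN, hL⟩ := hS.exists_gt L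
  exact ⟨N, hN, by omega, N, by omega, by omega, fun _ _ _ => ⟨0, le_rfl, Set.mem_univ _⟩⟩

theorem PS.union {A B : Set ℕ} (h : PS S (A ∪ B)) : PS S A ∨ PS S B := by
  by_cases hA : PS S A
  · exact Or.inl hA
  right
  obtain ⟨g, c, hg⟩ := h
  refine ⟨g, c, fun L => ?_⟩
  have h1 : ∃ L1 : ℕ, ∀ N ∈ S, L1 ≤ N → ∀ t : ℕ, N ≤ c * t → t + L1 ≤ c * N →
      ∃ s : ℕ, t ≤ s ∧ s ≤ t + L1 ∧ ∀ d : ℕ, d ≤ L + g → s + d ∉ A := by
    by_contra hc
    apply hA
    refine ⟨L + g, c, fun L1 => ?_⟩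
    by_contra hd
    apply hc
    refine ⟨L1, fun N hN hL t h1 h2 => ?_⟩
    by_contra he
    apply hd
    refine ⟨N, hN, hL, t, h1, h2, fun s h1 h2 => ?_⟩
    by_contra hf
    apply he
    exact ⟨s, h1, h2, fun d hd' hm => hf ⟨d, hd', hm⟩⟩
  obtain ⟨L1, hL1⟩ := h1
  obtain ⟨N, hN, hL, t, h1, h2, ht⟩ := hg (L1 + L)
  obtain ⟨s0, h01, h02, h03⟩ := hL1 N hN (by omega) t h1 (by omega)
  refine ⟨N, hN, by omega, s0, le_trans h1 (Nat.mul_le_mul_left _ h01), by omega,
    fun s h1 h2 => ?_⟩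
  obtain ⟨d, hd, hm⟩ := ht s (by omega) (by omega)
  refine ⟨d, hd, ?_⟩
  rcases hm with hm | hm
  · exfalso
    apply h03 (s - s0 + d) (by omega)
    have : s0 + (s - s0 + d) = s + d := by omega
    rw [this]; exact hm
  · exact hm

theorem PS.finUnion {ι : Type} (T : Finset ι) (D : ι → Set ℕ)
    (h : PS S {u | ∃ i ∈ T, u ∈ D i}) : ∃ i ∈ T, PS S (D i) := by
  classical
  induction T using Finset.induction_on with
  | empty =>
    obtain ⟨u, i, hi, -⟩ := h.nonempty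
    simp at hi
  | insert a T ha ih =>
    have h2 : PS S (D a ∪ {u | ∃ i ∈ T, u ∈ D i}) := by
      refine h.mono ?_
      rintro u ⟨i, hi, hu⟩
      rcases Finset.mem_insert.mp hi with rfl | hi
      · exact Or.inl hu
      · exact Or.inr ⟨i, hi, hu⟩
    rcases h2.union with h3 | h3
    · exact ⟨a, Finset.mem_insert_self _ _, h3⟩
    · obtain ⟨i, hi, hp⟩ := ih h3
      exact ⟨i, Finset.mem_insert_of_mem hi, hp⟩

theorem PS.dilate {D : Set ℕ} (h : PS S D) (y : ℕ) (hy : 1 ≤ y) :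
    PS S {w | ∃ u ∈ D, w = y * u} := by
  obtain ⟨g, c, hg⟩ := h
  refine ⟨y * (g + 1), y * c, fun L => ?_⟩
  obtain ⟨N, hN, hL, t, h1, h2, ht⟩ := hg (L + 1)
  refine ⟨N, hN, by omega, y * t, ?_, ?_, fun s h1 h2 => ?_⟩
  · calc N ≤ 1 * 1 * (c * t) := by omega
      _ ≤ y * y * (c * t) := Nat.mul_le_mul_right _ (Nat.mul_le_mul hy hy)
      _ = y * c * (y * t) := by ring
  · calc y * t + L ≤ y * (t + (L + 1)) := by nlinarith
      _ ≤ y * (c * N) := Nat.mul_le_mul_left _ h2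
      _ = y * c * N := by ring
  obtain ⟨e, rfl⟩ : ∃ e, s = y * t + e := ⟨s - y * t, by omega⟩
  have he : e ≤ L := by omega
  have hq : e / y ≤ L := le_trans (Nat.div_le_self _ _) he
  have hdm := Nat.div_add_mod e y
  have hlt : e % y < y := Nat.mod_lt _ hy
  generalize e / y = a at hq hdm
  generalize e % y = r at hlt hdm
  obtain ⟨d, hd, hm⟩ := ht (t + (a + 1)) (by omega) (by omega)
  refine ⟨y * (d + 1) - r, ?_, _, hm, ?_⟩
  · have : y * (d + 1) ≤ y * (g + 1) := Nat.mul_le_mul_left _ (by omega)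
    omega
  · have h3 : y * (t + (a + 1) + d) = y * t + y * a + y * (d + 1) := by ring
    have h4 : y * (d + 1) = y * d + y := by ring
    omega

theorem PS.contract {B : Set ℕ} (h : PS S B) (y : ℕ) (hy : 1 ≤ y)
    (hB : ∀ u ∈ B, ∃ x, u = y * x) : PS S {x | y * x ∈ B} := by
  obtain ⟨g, c, hg⟩ := h
  refine ⟨g, y * c, fun L => ?_⟩
  obtain ⟨N, hN, hL, t, h1, h2, ht⟩ := hg (y * (L + 1))
  have hdm := Nat.div_add_mod t y
  have hlt : t % y < y := Nat.mod_lt _ hy
  have hq : t / y ≤ t := Nat.div_le_self _ _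
  generalize t / y = a at hq hdm
  generalize t % y = r at hlt hdm
  have e1 : y * (L + 1) = y * L + y := by ring
  have e2 : L ≤ y * L := Nat.le_mul_of_pos_left _ hy
  refine ⟨N, hN, by omega, a + 1, ?_, ?_, fun s h3 h4 => ?_⟩
  · calc N ≤ c * t := h1
      _ ≤ c * (y * (a + 1)) := Nat.mul_le_mul_left _ (by nlinarith)
      _ = y * c * (a + 1) := by ring
  · calc a + 1 + L ≤ c * N := by omega
      _ ≤ y * (c * N) := Nat.le_mul_of_pos_left _ hy
      _ = y * c * N := by ring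
  have h5 : y * (a + 1) ≤ y * s := Nat.mul_le_mul_left _ h3
  have h6 : y * s ≤ y * (a + 1 + L) := Nat.mul_le_mul_left _ h4
  have e3 : y * (a + 1) = y * a + y := by ring
  have e4 : y * (a + 1 + L) = y * a + y + y * L := by ring
  obtain ⟨d, hd, hm⟩ := ht (y * s) (by omega) (by omega)
  obtain ⟨x, hx⟩ := hB _ hm
  have h7 : s ≤ x := Nat.le_of_mul_le_mul_left (by omega) hy
  obtain ⟨e, rfl⟩ := Nat.exists_eq_add_of_le h7
  have e5 : y * (s + e) = y * s + y * e := by ring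
  have e6 : e ≤ y * e := Nat.le_mul_of_pos_left _ hy
  refine ⟨e, by omega, ?_⟩
  change y * (s + e) ∈ B
  rw [← hx]; exact hm

/-- Van der Waerden for piecewise syndetic sets: centres of long progressions. -/
theorem PS.vdw {B : Set ℕ} (h : PS S B) (M : ℕ) :
    ∃ z : ℕ, 1 ≤ z ∧ PS S {u | ∀ f : ℕ, f ≤ M → f * z ≤ u ∧ u + f * z ∈ B ∧ u - f * z ∈ B} := by
  classical
  obtain ⟨g, c, hg⟩ := h
  obtain ⟨ι, _inst, hι⟩ :=
    Combinatorics.Line.exists_mono_in_high_dimension (Fin (2 * M + 1)) (Fin (g + 1))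
  set N := Fintype.card ι with hN
  have key : PS S {u | ∃ z ∈ Finset.Icc 1 N,
      u ∈ {u | ∀ f : ℕ, f ≤ M → f * z ≤ u ∧ u + f * z ∈ B ∧ u - f * z ∈ B}} := by
    refine ⟨2 * M * N + g, c, fun L => ?_⟩
    obtain ⟨N1, hN1, hL, t, h1, h2, ht⟩ := hg (L + 2 * M * N)
    refine ⟨N1, hN1, by omega, t, h1, by omega, fun s h1 h2 => ?_⟩
    have hsum : ∀ w : ι → Fin (2 * M + 1), ∑ i, (w i : ℕ) ≤ 2 * M * N := by
      intro w
      calc ∑ i, (w i : ℕ) ≤ ∑ _i : ι, 2 * M :=
            Finset.sum_le_sum fun i _ => Nat.lt_succ_iff.mp (w i).2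
        _ = 2 * M * N := by simp [hN, mul_comm]
    have hex : ∀ w : ι → Fin (2 * M + 1), ∃ d : Fin (g + 1), s + ∑ i, (w i : ℕ) + d ∈ B := by
      intro w
      have := hsum w
      obtain ⟨d, hd, hm⟩ := ht (s + ∑ i, (w i : ℕ)) (by omega) (by omega)
      exact ⟨⟨d, by omega⟩, hm⟩
    choose col hcol using hex
    obtain ⟨l, d, hl⟩ := hι col
    set I : Finset ι := {i | l.idxFun i = none} with hI
    set b : ℕ := ∑ i ∈ Iᶜ, ((l.idxFun i).map Fin.val).getD 0 with hb
    have hline : ∀ x : Fin (2 * M + 1), ∑ i, (l x i : ℕ) = (x : ℕ) * #I + b := by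
      intro x
      rw [← Finset.sum_add_sum_compl I]
      have e1 : ∑ i ∈ I, (l x i : ℕ) = (x : ℕ) * #I := by
        have e0 : (x : ℕ) * #I = ∑ _i ∈ I, (x : ℕ) := by
          rw [Finset.sum_const, smul_eq_mul, Nat.mul_comm]
        rw [e0]
        apply Finset.sum_congr rfl
        intro i hi
        rw [hI, Finset.mem_filter] at hi
        rw [l.apply_none _ _ hi.right]
      have e2 : ∑ i ∈ Iᶜ, (l x i : ℕ) = b := by
        apply Finset.sum_congr rfl
        intro i hi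
        rw [hI, Finset.compl_filter, Finset.mem_filter] at hi
        obtain ⟨y, hy⟩ := Option.ne_none_iff_exists.mp hi.right
        simp [← hy]
      rw [e1, e2]
    have hpos : 1 ≤ #I := Finset.card_pos.mpr
      ⟨l.proper.choose, by
        rw [hI, Finset.mem_filter]; exact ⟨Finset.mem_univ _, l.proper.choose_spec⟩⟩
    have hle : #I ≤ N := Finset.card_le_univ _
    have hmem : ∀ x : ℕ, x ≤ 2 * M → s + (x * #I + b) + d ∈ B := by
      intro x hx
      have h3 := hcol (l ⟨x, by omega⟩)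
      rw [hl, hline] at h3
      exact h3
    have hM := hsum (l ⟨M, by omega⟩)
    rw [hline] at hM
    have hdg : (d : ℕ) ≤ g := Nat.lt_succ_iff.mp d.2
    refine ⟨M * #I + b + d, ?_, #I, Finset.mem_Icc.mpr ⟨hpos, hle⟩, fun f hf => ?_⟩
    · simp only at hM
      omega
    · have h4 : f * #I ≤ M * #I := Nat.mul_le_mul_right _ hf
      refine ⟨by omega, ?_, ?_⟩
      · have h5 := hmem (M + f) (by omega)
        have h6 : s + ((M + f) * #I + b) + d = s + (M * #I + b + d) + f * #I := by ring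
        rw [h6] at h5; exact h5
      · have h5 := hmem (M - f) (by omega)
        have h6 : (M - f) * #I = M * #I - f * #I := Nat.sub_mul _ _ _
        have h7 : s + ((M - f) * #I + b) + d = s + (M * #I + b + d) - f * #I := by omega
        rw [h7] at h5; exact h5
  obtain ⟨z, hz, hp⟩ := PS.finUnion _ _ key
  exact ⟨z, (Finset.mem_Icc.mp hz).1, hp⟩

/-- A chain argument in the style of Moreira, with colourings that depend on the level: the points
`x + f v`, `x - f v` (`f ≤ P`) have at level `y` the colour that `(1 + Q v) x` has at the level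
`y'` with `1 + Q y' = (1 + Q y) (1 + Q v)`. -/
theorem pattern {κ : Type} (hS : S.Infinite) (T0 : Finset κ) (K : ℕ → ℕ → κ)
    (hK : ∀ y s, K y s ∈ T0) (Q P : ℕ) :
    ∃ y v : ℕ, 1 ≤ v ∧ PS S {x | ∀ f : ℕ, f ≤ P → f * v ≤ x ∧
      K y (x + f * v) = K (y + (1 + Q * y) * v) ((1 + Q * v) * x) ∧
      K y (x - f * v) = K (y + (1 + Q * y) * v) ((1 + Q * v) * x)} := by
  classical
  by_contra hgoal
  have step : ∀ n : ℕ, ∃ (T : Finset κ) (y v : κ → ℕ) (y0 : ℕ) (B : Set ℕ), T ⊆ T0 ∧ #T = n ∧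
      PS S B ∧ ∀ t ∈ T, 1 ≤ v t ∧ y0 = y t + (1 + Q * y t) * v t ∧
        ∀ u ∈ B, ∃ x : ℕ, u = (1 + Q * v t) * x ∧ ∀ f : ℕ, f ≤ P → f * v t ≤ x ∧
          K (y t) (x + f * v t) = t ∧ K (y t) (x - f * v t) = t := by
    intro n
    induction n with
    | zero =>
      exact ⟨∅, fun _ => 0, fun _ => 0, 0, Set.univ, Finset.empty_subset _, rfl, ps_univ hS,
        fun t ht => by simp at ht⟩
    | succ n ih =>
      obtain ⟨T, y, v, y0, B, hT0, hT, hB, hinv⟩ := ih
      have h1 : PS S {u | ∃ t ∈ T0, u ∈ {u | u ∈ B ∧ K y0 u = t}} :=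
        hB.mono fun u hu => ⟨K y0 u, hK _ _, hu, rfl⟩
      obtain ⟨c, hc0, hc⟩ := PS.finUnion _ _ h1
      have hcT : c ∉ T := by
        intro hcT
        obtain ⟨hv, hy, hx⟩ := hinv c hcT
        refine hgoal ⟨y c, v c, hv, ?_⟩
        refine (hc.contract (1 + Q * v c) (by omega) fun u hu => ?_).mono ?_
        · obtain ⟨x, h2, -⟩ := hx u hu.1
          exact ⟨x, h2⟩
        · rintro x ⟨hxB, hxK⟩ f hf
          obtain ⟨x', h2, h3⟩ := hx _ hxB
          have h4 : x = x' := Nat.eq_of_mul_eq_mul_left (by omega) h2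
          subst h4
          obtain ⟨h5, h6, h7⟩ := h3 f hf
          rw [← hy, hxK]
          exact ⟨h5, h6, h7⟩
      set B1 : Set ℕ := {u | u ∈ B ∧ K y0 u = c} with hB1
      set v1 : κ → ℕ := fun t => if t = c then 0 else v t with hv1
      set y1 : κ → ℕ := fun t => if t = c then y0 else y t with hy1
      have hinv1 : ∀ t ∈ insert c T, y0 = y1 t + (1 + Q * y1 t) * v1 t ∧ ∀ u ∈ B1, ∃ x : ℕ,
          u = (1 + Q * v1 t) * x ∧ ∀ f : ℕ, f ≤ P → f * v1 t ≤ x ∧
          K (y1 t) (x + f * v1 t) = t ∧ K (y1 t) (x - f * v1 t) = t := by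
        intro t ht
        by_cases htc : t = c
        · have e : v1 t = 0 := by simp [hv1, htc]
          have e' : y1 t = y0 := by simp [hy1, htc]
          rw [e, e', htc]
          exact ⟨by simp, fun u hu => ⟨u, by simp, fun f _ =>
            ⟨by simp, by simpa using hu.2, by simpa using hu.2⟩⟩⟩
        · have e : v1 t = v t := by simp [hv1, htc]
          have e' : y1 t = y t := by simp [hy1, htc]
          rw [e, e']
          have h2 := (hinv t ((Finset.mem_insert.mp ht).resolve_left htc)).2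
          exact ⟨h2.1, fun u hu => h2.2 u hu.1⟩
      obtain ⟨z, hz, hD⟩ := hc.vdw (∑ t ∈ insert c T, P * (1 + Q * v1 t) ^ 2)
      refine ⟨insert c T, y1, fun t => v1 t + (1 + Q * v1 t) * z, y0 + (1 + Q * y0) * z, _,
        Finset.insert_subset hc0 hT0,
        by rw [Finset.card_insert_of_notMem hcT, hT], hD.dilate (1 + Q * z) (by omega),
        fun t ht => ⟨by nlinarith [Nat.zero_le (v1 t), Nat.zero_le (Q * v1 t * z)], ?_, ?_⟩⟩
      · have h2 := (hinv1 t ht).1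
        beta_reduce
        generalize y1 t = a at h2 ⊢
        generalize v1 t = b at h2 ⊢
        rw [h2]; ring
      rintro w ⟨u, hu, rfl⟩
      beta_reduce
      have hP : P * (1 + Q * v1 t) ^ 2 ≤ ∑ t ∈ insert c T, P * (1 + Q * v1 t) ^ 2 :=
        Finset.single_le_sum (f := fun t => P * (1 + Q * v1 t) ^ 2) (fun _ _ => Nat.zero_le _) ht
      obtain ⟨x, hx, -⟩ := (hinv1 t ht).2 u (by simpa using (hu 0 (Nat.zero_le _)).2.1)
      refine ⟨x, by rw [hx]; ring, fun f hf => ?_⟩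
      obtain ⟨hle, hp, hm⟩ := hu (f * (1 + Q * v1 t) ^ 2)
        (le_trans (Nat.mul_le_mul_right _ hf) hP)
      obtain ⟨xp, hxp, hp0⟩ := (hinv1 t ht).2 _ hp
      obtain ⟨xm, hxm, hm0⟩ := (hinv1 t ht).2 _ hm
      obtain ⟨-, hp1, -⟩ := hp0 f hf
      obtain ⟨hm2, -, hm1⟩ := hm0 f hf
      set Y := 1 + Q * v1 t with hY
      have hYpos : 0 < Y := by omega
      have hx1 : x = xm + f * Y * z := by
        apply Nat.eq_of_mul_eq_mul_left hYpos
        have : Y * (xm + f * Y * z) = Y * xm + f * Y ^ 2 * z := by ring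
        omega
      have hxp1 : xp = x + f * Y * z := by
        apply Nat.eq_of_mul_eq_mul_left hYpos
        have e1 : Y * (x + f * Y * z) = Y * x + f * Y ^ 2 * z := by ring
        omega
      have e2 : f * (v1 t + Y * z) = f * v1 t + f * Y * z := by ring
      refine ⟨by omega, ?_, ?_⟩
      · have e3 : x + f * (v1 t + Y * z) = xp + f * v1 t := by omega
        rw [e3]; exact hp1
      · have e3 : x - f * (v1 t + Y * z) = xm - f * v1 t := by omega
        rw [e3]; exact hm1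
  obtain ⟨T, -, -, -, -, hT0, hT, -⟩ := step (#T0 + 1)
  have := Finset.card_le_card hT0
  omega

end Pool.Agent.MP_d19b84_nt.H13
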