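import Mathlib
import Pool.Agent.MP_d19b84_nt.h13.PS

set_option autoImplicit false

namespace Pool.Agent.MP_d19b84_nt.H13

open Finset

open Classical in
/-- Number of members of `X` in `[u, u + n)`. -/
noncomputable def cnt (X : Set ℕ) (u n : ℕ) : ℕ := #((Ico u (u + n)).filter (· ∈ X))

theorem cnt_le_add {X A B : Set ℕ} (h : X ⊆ A ∪ B) (u n : ℕ) :
    cnt X u n ≤ cnt A u n + cnt B u n := by
  classical
  unfold cnt
  refine le_trans (Finset.card_le_card ?_) (Finset.card_union_le _ _)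
  intro k hk
  simp only [Finset.mem_filter, Finset.mem_union] at hk ⊢
  rcases h hk.2 with h1 | h1
  · exact Or.inl ⟨hk.1, h1⟩
  · exact Or.inr ⟨hk.1, h1⟩

theorem cnt_shift {X Y : Set ℕ} {j u : ℕ} (h : ∀ k ∈ X, u ≤ k → k + j ∈ Y) (n : ℕ) :
    cnt X u n ≤ cnt Y (u + j) n := by
  classical
  unfold cnt
  refine Finset.card_le_card_of_injOn (fun k => k + j) ?_ ?_
  · intro k hk
    simp only [Finset.coe_filter, Finset.mem_Ico, Set.mem_ofPred_eq] at hk ⊢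
    exact ⟨⟨by omega, by omega⟩, h k hk.2 hk.1.1⟩
  · intro k _ k' _ hkk
    exact Nat.add_right_cancel hkk

/-- A family of sets of scales with upper Banach density bounded below. -/
def FD (K : ℕ → Set ℕ) : Prop :=
  ∃ r : ℕ, ∀ L : ℕ, ∃ u n : ℕ, L ≤ u ∧ L ≤ n ∧ n ≤ r * cnt (K L) u n

theorem FD.shift {K K' : ℕ → Set ℕ} (h : FD K) (j : ℕ)
    (hK : ∀ L, ∃ L', L ≤ L' ∧ ∀ k ∈ K L', L' ≤ k → k + j ∈ K' L) : FD K' := by
  obtain ⟨r, hr⟩ := h
  refine ⟨r, fun L => ?_⟩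
  obtain ⟨L', h1, h2⟩ := hK L
  obtain ⟨u, n, h3, h4, h5⟩ := hr L'
  exact ⟨u + j, n, by omega, by omega, le_trans h5 (Nat.mul_le_mul_left _
    (cnt_shift (fun k hk hu => h2 k hk (by omega)) n))⟩

theorem FD.exists {K : ℕ → Set ℕ} (h : FD K) (L : ℕ) : ∃ k ∈ K (L + 1), L ≤ k := by
  classical
  obtain ⟨r, hr⟩ := h
  obtain ⟨u, n, h1, h2, h3⟩ := hr (L + 1)
  have : 0 < cnt (K (L + 1)) u n := by
    rcases Nat.eq_zero_or_pos (cnt (K (L + 1)) u n) with h | h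
    · rw [h] at h3; omega
    · exact h
  obtain ⟨k, hk⟩ := Finset.card_pos.mp this
  simp only [Finset.mem_filter, Finset.mem_Ico] at hk
  exact ⟨k, hk.2, by omega⟩

theorem FD.split {K B : ℕ → Set ℕ} {A : ℕ → ℕ → Set ℕ} (h : FD K) (hA : ∀ L, ¬ FD (A L))
    (hK : ∀ L L1, K (L + L1) ⊆ A L L1 ∪ B L) : FD B := by
  obtain ⟨r, hr⟩ := h
  refine ⟨2 * r, fun L => ?_⟩
  have h1 : ∃ L1, ∀ u n, L1 ≤ u → L1 ≤ n → 2 * r * cnt (A L L1) u n < n := by
    by_contra hc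
    apply hA L
    refine ⟨2 * r, fun L1 => ?_⟩
    by_contra hd
    apply hc
    refine ⟨L1, fun u n h1 h2 => ?_⟩
    by_contra he
    exact hd ⟨u, n, h1, h2, by omega⟩
  obtain ⟨L1, hL1⟩ := h1
  obtain ⟨u, n, h2, h3, h4⟩ := hr (L + L1)
  have h5 := hL1 u n (by omega) (by omega)
  have h6 := Nat.mul_le_mul_left r (cnt_le_add (hK L L1) u n)
  refine ⟨u, n, by omega, by omega, ?_⟩
  have e1 : r * (cnt (A L L1) u n + cnt (B L) u n) = r * cnt (A L L1) u n + r * cnt (B L) u n := by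
    ring
  have e2 : 2 * r * cnt (A L L1) u n = 2 * (r * cnt (A L L1) u n) := by ring
  have e3 : 2 * r * cnt (B L) u n = 2 * (r * cnt (B L) u n) := by ring
  omega

theorem FD.finUnion (T : Finset ℕ) (A : ℕ → ℕ → Set ℕ) (hA : ∀ i, Antitone (A i))
    (h : FD fun L => {k | ∃ i ∈ T, k ∈ A i L}) : ∃ i ∈ T, FD (A i) := by
  induction T using Finset.induction_on with
  | empty =>
    obtain ⟨k, ⟨i, hi, -⟩, -⟩ := h.exists 0
    simp at hi
  | insert a T ha ih =>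
    by_cases h1 : FD (A a)
    · exact ⟨a, Finset.mem_insert_self _ _, h1⟩
    have h2 : FD fun L => {k | ∃ i ∈ T, k ∈ A i L} := by
      refine h.split (A := fun _ => A a) (fun _ => h1) ?_
      rintro L L1 k ⟨i, hi, hk⟩
      rcases Finset.mem_insert.mp hi with rfl | hi
      · exact Or.inl (hA _ (by omega) hk)
      · exact Or.inr ⟨i, hi, hA _ (by omega) hk⟩
    obtain ⟨i, hi, hp⟩ := ih h2
    exact ⟨i, Finset.mem_insert_of_mem hi, hp⟩

theorem cnt_translates {X : Set ℕ} {m J : ℕ}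
    (hX : ∀ k ∈ X, ∀ k' ∈ X, ∀ e, 1 ≤ e → e ≤ m → k' + e * J ≠ k) (u n : ℕ) :
    (m + 1) * cnt X u n ≤ n + m * J := by
  classical
  have h6 : #(range (m + 1) ×ˢ (Ico u (u + n)).filter (· ∈ X)) ≤ #(Ico u (u + n + m * J)) := by
    refine Finset.card_le_card_of_injOn (fun p => p.2 + p.1 * J) ?_ ?_
    · rintro ⟨i, k⟩ hp
      simp only [Finset.coe_product, Set.mem_prod, Finset.mem_coe, Finset.mem_range,
        Finset.mem_filter, Finset.mem_Ico] at hp ⊢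
      have : i * J ≤ m * J := Nat.mul_le_mul_right _ (by omega)
      omega
    · have aux : ∀ i i' k k' : ℕ, i < i' → i' < m + 1 → k ∈ X → k' ∈ X →
          k + i * J ≠ k' + i' * J := by
        intro i i' k k' hi hi' hk hk' he
        obtain ⟨e, rfl⟩ := Nat.exists_eq_add_of_lt hi
        apply hX k hk k' hk' (e + 1) (by omega) (by omega)
        have e1 : (i + e + 1) * J = i * J + (e + 1) * J := by ring
        omega
      rintro ⟨i, k⟩ hp ⟨i', k'⟩ hp' he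
      simp only [Finset.coe_product, Set.mem_prod, Finset.mem_coe, Finset.mem_range,
        Finset.mem_filter] at hp hp' he
      rcases lt_trichotomy i i' with h7 | h7 | h7
      · exact absurd he (aux i i' k k' h7 hp'.1 hp.2.2 hp'.2.2)
      · subst h7
        rw [Nat.add_right_cancel he]
      · exact absurd he.symm (aux i' i k' k h7 hp.1 hp'.2.2 hp.2.2)
  rw [Finset.card_product, Finset.card_range, Nat.card_Ico] at h6
  unfold cnt
  omega

/-- Poincare recurrence for antitone families. -/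
theorem FD.recur {K : ℕ → Set ℕ} (h : FD K) (hK : Antitone K) (J : ℕ) :
    ∃ j, J ≤ j ∧ FD fun L => {k | k ∈ K L ∧ k + j ∈ K L} := by
  obtain ⟨r, hr⟩ := h
  have key : FD fun L => {k | ∃ i ∈ Icc 1 (2 * r),
      k ∈ {k | k ∈ K L ∧ k + i * (J + 1) ∈ K L}} := by
    refine ⟨2 * r, fun L => ?_⟩
    obtain ⟨u, n, h1, h2, h3⟩ := hr (L + 2 * r * (2 * r * (J + 1)))
    refine ⟨u, n, by omega, by omega, ?_⟩
    beta_reduce
    set X : Set ℕ := {k | k ∈ K L ∧ ∀ i ∈ Icc 1 (2 * r), k + i * (J + 1) ∉ K L} with hX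
    have h4 : cnt (K (L + 2 * r * (2 * r * (J + 1)))) u n ≤ cnt X u n + cnt {k | ∃ i ∈ Icc 1 (2 * r),
        k ∈ {k | k ∈ K L ∧ k + i * (J + 1) ∈ K L}} u n := by
      refine cnt_le_add (fun k hk => ?_) u n
      have hk' : k ∈ K L := hK (by omega) hk
      by_cases h5 : ∀ i ∈ Icc 1 (2 * r), k + i * (J + 1) ∉ K L
      · exact Or.inl ⟨hk', h5⟩
      · right
        by_contra h6
        exact h5 fun i hi h7 => h6 ⟨i, hi, hk', h7⟩
    have h5 : (2 * r + 1) * cnt X u n ≤ n + 2 * r * (J + 1) := by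
      refine cnt_translates (fun k hk k' hk' e h6 h7 he => ?_) u n
      apply hk'.2 e (Finset.mem_Icc.mpr ⟨h6, h7⟩)
      rw [he]; exact hk.1
    have h7 : 2 * r * cnt X u n ≤ n := by
      have h8 : (2 * r + 1) * (2 * r * cnt X u n) ≤ (2 * r + 1) * n := by
        have h9 := Nat.mul_le_mul_left (2 * r) h5
        have e1 : 2 * r * ((2 * r + 1) * cnt X u n) = (2 * r + 1) * (2 * r * cnt X u n) := by ring
        have e2 : 2 * r * (n + 2 * r * (J + 1)) = 2 * r * n + 2 * r * (2 * r * (J + 1)) := by ring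
        have e3 : (2 * r + 1) * n = 2 * r * n + n := by ring
        omega
      exact Nat.le_of_mul_le_mul_left h8 (by omega)
    have h8 := Nat.mul_le_mul_left (2 * r) h4
    have e4 : 2 * r * cnt (K (L + 2 * r * (2 * r * (J + 1)))) u n =
        2 * (r * cnt (K (L + 2 * r * (2 * r * (J + 1)))) u n) := by ring
    rw [e4, Nat.mul_add (2 * r) (cnt X u n)] at h8
    omega
  obtain ⟨i, hi, hp⟩ := FD.finUnion _ (fun i L => {k | k ∈ K L ∧ k + i * (J + 1) ∈ K L})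
    (fun i L L' hL k hk => ⟨hK hL hk.1, hK hL hk.2⟩) key
  refine ⟨i * (J + 1), ?_, hp⟩
  have := (Finset.mem_Icc.mp hi).1
  nlinarith

/-- At the scale `k` the set `B` is `g`-syndetic on a window of length `L`, placed in the first
part `[1, 1 + e / D]` of the block starting at `c 2 ^ k` (after scaling by `q`). -/
def Win (c q D e : ℕ) (B : Set ℕ) (g L k : ℕ) : Prop :=
  ∃ t : ℕ, c * 2 ^ k ≤ q * t ∧ D * (q * (t + L)) ≤ (D + e) * (c * 2 ^ k) ∧
    ∀ s : ℕ, t ≤ s → s ≤ t + L → ∃ d : ℕ, d ≤ g ∧ s + d ∈ B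

theorem Win.anti {c q D e : ℕ} {B : Set ℕ} {g L L' k : ℕ} (h : Win c q D e B g L' k) (hL : L ≤ L') :
    Win c q D e B g L k := by
  obtain ⟨t, h1, h2, h3⟩ := h
  exact ⟨t, h1, le_trans (Nat.mul_le_mul_left _ (Nat.mul_le_mul_left _ (by omega))) h2,
    fun s h4 h5 => h3 s h4 (by omega)⟩

/-- Large sets: piecewise syndetic at a set of scales in `G` of positive density. -/
def LG (c q D e : ℕ) (G B : Set ℕ) : Prop :=
  ∃ g : ℕ, FD fun L => {k | k ∈ G ∧ Win c q D e B g L k}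

variable {c q D e : ℕ} {G : Set ℕ}

theorem LG.mono {A B : Set ℕ} (h : LG c q D e G A) (hAB : A ⊆ B) : LG c q D e G B := by
  obtain ⟨g, hg⟩ := h
  refine ⟨g, hg.shift 0 fun L => ⟨L, le_rfl, ?_⟩⟩
  rintro k ⟨hk, t, h1, h2, h3⟩ -
  refine ⟨hk, t, h1, h2, fun s h4 h5 => ?_⟩
  obtain ⟨d, hd, hm⟩ := h3 s h4 h5
  exact ⟨d, hd, hAB hm⟩

theorem LG.union {A B : Set ℕ} (h : LG c q D e G (A ∪ B)) : LG c q D e G A ∨ LG c q D e G B := by
  by_cases hA : LG c q D e G A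
  · exact Or.inl hA
  right
  obtain ⟨g, hg⟩ := h
  refine ⟨g, hg.split (A := fun L L1 => {k | k ∈ G ∧ Win c q D e A (L + g) L1 k})
    (fun L h1 => hA ⟨L + g, h1⟩) ?_⟩
  rintro L L1 k ⟨hk, t, h1, h2, h3⟩
  by_cases h4 : ∀ s : ℕ, t ≤ s → s ≤ t + L1 → ∃ d : ℕ, d ≤ L + g ∧ s + d ∈ A
  · exact Or.inl ⟨hk, t, h1,
      le_trans (Nat.mul_le_mul_left _ (Nat.mul_le_mul_left _ (by omega))) h2, h4⟩
  right
  have h5 : ∃ s0, t ≤ s0 ∧ s0 ≤ t + L1 ∧ ∀ d : ℕ, d ≤ L + g → s0 + d ∉ A := by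
    by_contra hc
    apply h4
    intro s h6 h7
    by_contra hd
    exact hc ⟨s, h6, h7, fun d h8 h9 => hd ⟨d, h8, h9⟩⟩
  obtain ⟨s0, h01, h02, h03⟩ := h5
  refine ⟨hk, s0, le_trans h1 (Nat.mul_le_mul_left _ h01),
    le_trans (Nat.mul_le_mul_left _ (Nat.mul_le_mul_left _ (by omega))) h2, fun s h6 h7 => ?_⟩
  obtain ⟨d, hd, hm⟩ := h3 s (by omega) (by omega)
  refine ⟨d, hd, hm.resolve_left fun hm => ?_⟩
  apply h03 (s - s0 + d) (by omega)
  have : s0 + (s - s0 + d) = s + d := by omega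
  rw [this]; exact hm

theorem LG.finUnion {ι : Type} (T : Finset ι) (A : ι → Set ℕ)
    (h : LG c q D e G {u | ∃ i ∈ T, u ∈ A i}) : ∃ i ∈ T, LG c q D e G (A i) := by
  classical
  induction T using Finset.induction_on with
  | empty =>
    obtain ⟨g, hg⟩ := h
    obtain ⟨k, ⟨-, t, -, -, h3⟩, -⟩ := hg.exists 0
    obtain ⟨d, -, i, hi, -⟩ := h3 t le_rfl (by omega)
    simp at hi
  | insert a T ha ih =>
    have h2 : LG c q D e G (A a ∪ {u | ∃ i ∈ T, u ∈ A i}) := by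
      refine h.mono ?_
      rintro u ⟨i, hi, hu⟩
      rcases Finset.mem_insert.mp hi with rfl | hi
      · exact Or.inl hu
      · exact Or.inr ⟨i, hi, hu⟩
    rcases h2.union with h3 | h3
    · exact ⟨a, Finset.mem_insert_self _ _, h3⟩
    · obtain ⟨i, hi, hp⟩ := ih h3
      exact ⟨i, Finset.mem_insert_of_mem hi, hp⟩

theorem LG.recur {B : Set ℕ} (h : LG c q D e G B) (J : ℕ) :
    ∃ j, J ≤ j ∧ LG c q D e {k | k ∈ G ∧ k + j ∈ G} B := by
  obtain ⟨g, hg⟩ := h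
  obtain ⟨j, hj, h1⟩ := hg.recur (fun L L' hL k hk => ⟨hk.1, hk.2.anti hL⟩) J
  exact ⟨j, hj, g, h1.shift 0 fun L => ⟨L, le_rfl, fun k hk _ => ⟨⟨hk.1.1, hk.2.1⟩, hk.1.2⟩⟩⟩

/-- The numbers whose `q`-multiple lies in a block `[c 2 ^ k, (1 + 1 / m) c 2 ^ k)`, `k ∈ G`. -/
def Zone (c m q : ℕ) (G : Set ℕ) : Set ℕ :=
  {s | ∃ k ∈ G, c * 2 ^ k ≤ q * s ∧ m * (q * s) < (m + 1) * (c * 2 ^ k)}

theorem LG.zone {B : Set ℕ} (h : LG c q D e G B) {m : ℕ} (hc : 1 ≤ c) (he : m * e < D) :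
    LG c q D e G (B ∩ Zone c m q G) := by
  obtain ⟨g, hg⟩ := h
  refine ⟨g, hg.shift 0 fun L => ⟨L + g, by omega, ?_⟩⟩
  rintro k ⟨hk, t, h1, h2, h3⟩ -
  refine ⟨hk, t, h1, le_trans (Nat.mul_le_mul_left _ (Nat.mul_le_mul_left _ (by omega))) h2,
    fun s h4 h5 => ?_⟩
  obtain ⟨d, hd, hm⟩ := h3 s h4 (by omega)
  refine ⟨d, hd, hm, k, hk, le_trans h1 (Nat.mul_le_mul_left _ (by omega)), ?_⟩
  have h6 : D * (q * (s + d)) ≤ D * (q * (t + (L + g))) :=
    Nat.mul_le_mul_left _ (Nat.mul_le_mul_left _ (by omega))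
  have h7 : m * (D + e) * (c * 2 ^ k) < D * (m + 1) * (c * 2 ^ k) :=
    Nat.mul_lt_mul_of_pos_right (by nlinarith) (by positivity)
  refine Nat.lt_of_mul_lt_mul_left (a := D) ?_
  calc D * (m * (q * (s + d))) = m * (D * (q * (s + d))) := by ring
    _ ≤ m * ((D + e) * (c * 2 ^ k)) := Nat.mul_le_mul_left _ (le_trans h6 h2)
    _ = m * (D + e) * (c * 2 ^ k) := by ring
    _ < D * (m + 1) * (c * 2 ^ k) := h7
    _ = D * ((m + 1) * (c * 2 ^ k)) := by ring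

theorem LG.ps {B : Set ℕ} (h : LG c q D e G B) : PS Set.univ B := by
  obtain ⟨g, hg⟩ := h
  refine ⟨g, 2, fun L => ?_⟩
  obtain ⟨k, ⟨-, t, h1, -, h3⟩, hk⟩ := hg.exists (2 * L)
  exact ⟨t + L + L, Set.mem_univ _, by omega, t + L, by omega, by omega,
    fun s h4 h5 => h3 s (by omega) (by omega)⟩

theorem lg_univ (hG : FD fun _ => G) (hc : 1 ≤ c) (hq : 1 ≤ q) : LG c q D 1 G Set.univ := by
  refine ⟨0, hG.shift 0 fun L => ⟨L + D * (q * (L + 1)), by omega, fun k hk hL => ⟨hk, ?_⟩⟩⟩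
  have h1 : k < c * 2 ^ k := lt_of_lt_of_le Nat.lt_two_pow_self (Nat.le_mul_of_pos_left _ hc)
  rw [Nat.add_zero k]
  unfold Win
  generalize c * 2 ^ k = V at h1
  have hdm := Nat.div_add_mod V q
  have hlt : V % q < q := Nat.mod_lt _ hq
  refine ⟨V / q + 1, ?_, ?_, fun _ _ _ => ⟨0, le_rfl, Set.mem_univ _⟩⟩
  · rw [Nat.mul_add]; omega
  · generalize V / q = a at hdm
    have e1 : D * (q * (a + 1 + L)) = D * (q * a) + D * (q * (L + 1)) := by ring
    have e2 : D * (q * a) ≤ D * V := Nat.mul_le_mul_left _ (by omega)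
    have e3 : (D + 1) * V = D * V + V := by ring
    omega

theorem LG.dilate {G' B : Set ℕ} (h : LG c q D e G' B) (he : e ≤ D) {y j : ℕ} (hy1 : 2 ^ j ≤ y)
    (hy2 : 2 * D * y ≤ (2 * D + 1) * 2 ^ j) (hD : 1 ≤ D) (hG : ∀ k ∈ G', k + j ∈ G) :
    LG c q D (e + 1) G {w | ∃ u ∈ B, w = y * u} := by
  obtain ⟨g, hg⟩ := h
  have hy : 1 ≤ y := le_trans Nat.one_le_two_pow hy1
  refine ⟨y * (g + 1), hg.shift j fun L => ⟨L + 1, by omega, ?_⟩⟩
  rintro k ⟨hk, t, h1, h2, ht⟩ -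
  refine ⟨hG k hk, y * t, ?_, ?_, fun s h1 h2 => ?_⟩
  · calc c * 2 ^ (k + j) = 2 ^ j * (c * 2 ^ k) := by ring
      _ ≤ y * (q * t) := Nat.mul_le_mul hy1 h1
      _ = q * (y * t) := by ring
  · refine Nat.le_of_mul_le_mul_left (c := 2 * D) ?_ (by omega)
    have h3 : y * t + L ≤ y * (t + (L + 1)) := by nlinarith
    have h4 : (2 * D + 1) * (D + e) ≤ 2 * D * (D + (e + 1)) := by nlinarith
    calc 2 * D * (D * (q * (y * t + L))) ≤ 2 * D * (D * (q * (y * (t + (L + 1))))) := by gcongr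
      _ = 2 * D * y * (D * (q * (t + (L + 1)))) := by ring
      _ ≤ (2 * D + 1) * 2 ^ j * ((D + e) * (c * 2 ^ k)) := Nat.mul_le_mul hy2 h2
      _ = (2 * D + 1) * (D + e) * (c * 2 ^ (k + j)) := by ring
      _ ≤ 2 * D * (D + (e + 1)) * (c * 2 ^ (k + j)) := Nat.mul_le_mul_right _ h4
      _ = 2 * D * ((D + (e + 1)) * (c * 2 ^ (k + j))) := by ring
  obtain ⟨o, rfl⟩ : ∃ o, s = y * t + o := ⟨s - y * t, by omega⟩
  have hc : o ≤ L := by omega
  have hq : o / y ≤ L := le_trans (Nat.div_le_self _ _) hc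
  have hdm := Nat.div_add_mod o y
  have hlt : o % y < y := Nat.mod_lt _ hy
  generalize o / y = a at hq hdm
  generalize o % y = r at hlt hdm
  obtain ⟨d, hd, hm⟩ := ht (t + (a + 1)) (by omega) (by omega)
  refine ⟨y * (d + 1) - r, ?_, _, hm, ?_⟩
  · have : y * (d + 1) ≤ y * (g + 1) := Nat.mul_le_mul_left _ (by omega)
    omega
  · have h3 : y * (t + (a + 1) + d) = y * t + y * a + y * (d + 1) := by ring
    have h4 : y * (d + 1) = y * d + y := by ring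
    omega

end Pool.Agent.MP_d19b84_nt.H13
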