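import Mathlib
import Pool.Agent.MP_d19b84_nt.h13.FD

set_option autoImplicit false

namespace Pool.Agent.MP_d19b84_nt.H13

open Finset

variable {c0 q D e : ℕ} {G : Set ℕ}

theorem gens {B : Set ℕ} {g : ℕ} (h : FD fun L => {k | k ∈ G ∧ Win c0 q D e B g L k}) {Q : ℕ}
    (hQ : 1 ≤ Q) (N : ℕ) : ∃ (G' : Set ℕ) (j x : ℕ → ℕ),
      (FD fun L => {k | k ∈ G' ∧ Win c0 q D e B g L k}) ∧
      (∀ k ∈ G', k ∈ G ∧ ∀ i, i < N → k + j i ∈ G) ∧ ∀ i, i < N → 1 ≤ x i ∧ 2 ^ j i ≤ Q * x i ∧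
        2 * D * (1 + Q * ∑ n ∈ range (i + 1), x n) ≤ (2 * D + 1) * 2 ^ j i := by
  induction N with
  | zero => exact ⟨G, fun _ => 0, fun _ => 0, h, fun k hk => ⟨hk, fun i hi => by omega⟩,
      fun i hi => by omega⟩
  | succ N ih =>
    obtain ⟨G', j, x, h1, h2, h3⟩ := ih
    obtain ⟨j0, hj0, h4⟩ := h1.recur (fun L L' hL k hk => ⟨hk.1, hk.2.anti hL⟩)
      (2 * D * (1 + Q + Q * ∑ n ∈ range N, x n))
    refine ⟨{k | k ∈ G' ∧ k + j0 ∈ G'}, fun i => if i = N then j0 else j i,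
      fun i => if i = N then 2 ^ j0 / Q + 1 else x i,
      h4.shift 0 fun L => ⟨L, le_rfl, fun k hk _ => ⟨⟨hk.1.1, hk.2.1⟩, hk.1.2⟩⟩,
      fun k hk => ⟨(h2 k hk.1).1, fun i hi => ?_⟩, fun i hi => ?_⟩
    · by_cases hiN : i = N
      · simp only [hiN, if_true]; exact (h2 _ hk.2).1
      · simp only [hiN, if_false]; exact (h2 k hk.1).2 i (by omega)
    have hs : ∀ m, m ≤ N → ∑ n ∈ range m, (if n = N then 2 ^ j0 / Q + 1 else x n) =
        ∑ n ∈ range m, x n := by
      intro m hm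
      refine Finset.sum_congr rfl fun n hn => ?_
      have := Finset.mem_range.mp hn
      rw [if_neg (by omega)]
    by_cases hiN : i = N
    · subst hiN
      rw [Finset.sum_range_succ, hs i le_rfl]
      simp only [if_true]
      have h5 : j0 < 2 ^ j0 := Nat.lt_two_pow_self
      have hdm := Nat.div_add_mod (2 ^ j0) Q
      have hlt : 2 ^ j0 % Q < Q := Nat.mod_lt _ hQ
      generalize 2 ^ j0 / Q = a at hdm
      refine ⟨by omega, by rw [Nat.mul_add]; omega, ?_⟩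
      have e1 : 2 * D * (1 + Q * (∑ n ∈ range i, x n + (a + 1))) =
          2 * D * (1 + Q + Q * ∑ n ∈ range i, x n) + 2 * D * (Q * a) := by ring
      have e2 : 2 * D * (Q * a) ≤ 2 * D * 2 ^ j0 := Nat.mul_le_mul_left _ (by omega)
      have e3 : (2 * D + 1) * 2 ^ j0 = 2 * D * 2 ^ j0 + 2 ^ j0 := by ring
      omega
    · rw [hs (i + 1) (by omega)]
      simp only [hiN, if_false]
      exact h3 i (by omega)

/-- One step of the chain: van der Waerden with a difference of prescribed size, then dilation. -/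
theorem LG.step {B : Set ℕ} (h : LG c0 q D e G B) (he : e ≤ D) (hD : 1 ≤ D) {Q : ℕ} (hQ : 1 ≤ Q)
    (M : ℕ) : ∃ z : ℕ, 1 ≤ z ∧ LG c0 q D (e + 1) G {w | ∃ u ∈ {u | ∀ f : ℕ, f ≤ M →
      f * z ≤ u ∧ u + f * z ∈ B ∧ u - f * z ∈ B}, w = (1 + Q * z) * u} := by
  classical
  obtain ⟨g, hg⟩ := h
  obtain ⟨ι, _inst, hι⟩ :=
    Combinatorics.Line.exists_mono_in_high_dimension (Fin (2 * M + 1)) (Fin (g + 1))
  obtain ⟨G', j, x, h1, h2, h3⟩ := gens hg hQ (Fintype.card ι)
  set σ : ι → ℕ := fun i => (Fintype.equivFin ι i : ℕ) with hσ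
  have hσlt : ∀ i, σ i < Fintype.card ι := fun i => (Fintype.equivFin ι i).2
  have hσinj : Function.Injective σ := fun a b hab =>
    (Fintype.equivFin ι).injective (Fin.ext hab)
  set W := 2 * M * ∑ i, x (σ i) with hW
  have key : LG c0 q D e G' {u | ∃ I ∈ (Finset.univ : Finset (Finset ι)).filter Finset.Nonempty,
      u ∈ {u | ∀ f : ℕ, f ≤ M → f * (∑ i ∈ I, x (σ i)) ≤ u ∧ u + f * (∑ i ∈ I, x (σ i)) ∈ B ∧
        u - f * (∑ i ∈ I, x (σ i)) ∈ B}} := by
    refine ⟨W + g, h1.shift 0 fun L => ⟨L + W, by omega, ?_⟩⟩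
    rintro k ⟨hk, t, h4, h5, ht⟩ -
    refine ⟨hk, t, h4, le_trans (Nat.mul_le_mul_left _ (Nat.mul_le_mul_left _ (by omega))) h5,
      fun s h6 h7 => ?_⟩
    have hsum : ∀ w : ι → Fin (2 * M + 1), ∑ i, (w i : ℕ) * x (σ i) ≤ W := by
      intro w
      rw [hW, Finset.mul_sum]
      exact Finset.sum_le_sum fun i _ => Nat.mul_le_mul_right _ (Nat.lt_succ_iff.mp (w i).2)
    have hex : ∀ w : ι → Fin (2 * M + 1), ∃ d : Fin (g + 1),
        s + ∑ i, (w i : ℕ) * x (σ i) + d ∈ B := by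
      intro w
      have := hsum w
      obtain ⟨d, hd, hm⟩ := ht (s + ∑ i, (w i : ℕ) * x (σ i)) (by omega) (by omega)
      exact ⟨⟨d, by omega⟩, hm⟩
    choose col hcol using hex
    obtain ⟨l, d, hl⟩ := hι col
    set I : Finset ι := {i | l.idxFun i = none} with hI
    set b : ℕ := ∑ i ∈ Iᶜ, ((l.idxFun i).map Fin.val).getD 0 * x (σ i) with hb
    set z : ℕ := ∑ i ∈ I, x (σ i) with hz
    have hline : ∀ a : Fin (2 * M + 1), ∑ i, (l a i : ℕ) * x (σ i) = (a : ℕ) * z + b := by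
      intro a
      rw [← Finset.sum_add_sum_compl I]
      have e1 : ∑ i ∈ I, (l a i : ℕ) * x (σ i) = (a : ℕ) * z := by
        rw [hz, Finset.mul_sum]
        apply Finset.sum_congr rfl
        intro i hi
        rw [hI, Finset.mem_filter] at hi
        rw [l.apply_none _ _ hi.right]
      have e2 : ∑ i ∈ Iᶜ, (l a i : ℕ) * x (σ i) = b := by
        apply Finset.sum_congr rfl
        intro i hi
        rw [hI, Finset.compl_filter, Finset.mem_filter] at hi
        obtain ⟨y, hy⟩ := Option.ne_none_iff_exists.mp hi.right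
        simp [← hy]
      rw [e1, e2]
    have hne : I.Nonempty := ⟨l.proper.choose, by
      rw [hI, Finset.mem_filter]; exact ⟨Finset.mem_univ _, l.proper.choose_spec⟩⟩
    have hmem : ∀ a : ℕ, a ≤ 2 * M → s + (a * z + b) + d ∈ B := by
      intro a ha
      have h8 := hcol (l ⟨a, by omega⟩)
      rw [hl, hline] at h8
      exact h8
    have hM := hsum (l ⟨M, by omega⟩)
    rw [hline] at hM
    have hdg : (d : ℕ) ≤ g := Nat.lt_succ_iff.mp d.2
    refine ⟨M * z + b + d, ?_, I, Finset.mem_filter.mpr ⟨Finset.mem_univ _, hne⟩, fun f hf => ?_⟩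
    · simp only at hM
      omega
    · rw [← hz]
      have h8 : f * z ≤ M * z := Nat.mul_le_mul_right _ hf
      refine ⟨by omega, ?_, ?_⟩
      · have h9 := hmem (M + f) (by omega)
        have h10 : s + ((M + f) * z + b) + d = s + (M * z + b + d) + f * z := by ring
        rw [h10] at h9; exact h9
      · have h9 := hmem (M - f) (by omega)
        have h10 : (M - f) * z = M * z - f * z := Nat.sub_mul _ _ _
        have h11 : s + ((M - f) * z + b) + d = s + (M * z + b + d) - f * z := by omega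
        rw [h11] at h9; exact h9
  obtain ⟨I, hI, hp⟩ := LG.finUnion _ _ key
  obtain ⟨i0, hi0, hmax⟩ := Finset.exists_max_image I σ (Finset.mem_filter.mp hI).2
  obtain ⟨h4, h5, h6⟩ := h3 (σ i0) (hσlt i0)
  have h7 : x (σ i0) ≤ ∑ i ∈ I, x (σ i) :=
    Finset.single_le_sum (f := fun i => x (σ i)) (fun _ _ => Nat.zero_le _) hi0
  have h8 : ∑ i ∈ I, x (σ i) ≤ ∑ n ∈ range (σ i0 + 1), x n := by
    rw [← Finset.sum_image (s := I) (g := σ) (f := x) fun a _ b _ hab => hσinj hab]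
    refine Finset.sum_le_sum_of_subset fun n hn => ?_
    obtain ⟨i, hi, rfl⟩ := Finset.mem_image.mp hn
    have := hmax i hi
    exact Finset.mem_range.mpr (by omega)
  have h9 := Nat.mul_le_mul_left Q h7
  have h10 := Nat.mul_le_mul_left Q h8
  exact ⟨∑ i ∈ I, x (σ i), by omega, hp.dilate he (j := j (σ i0)) (by omega)
    (le_trans (Nat.mul_le_mul_left _ (by omega)) h6) hD fun k hk => (h2 k hk).2 _ (hσlt i0)⟩

/-- The chain argument at a set of scales of positive density. -/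
theorem patternG {κ : Type} (hG : FD fun _ => G) (hc1 : 1 ≤ c0) {m : ℕ} (hm1 : 1 ≤ m) (hq : 1 ≤ q)
    (T0 : Finset κ) (K : ℕ → ℕ → κ)
    (hK : ∀ y s, K y s ∈ T0) {Q : ℕ} (hQ : 1 ≤ Q) (P : ℕ) :
    ∃ y v : ℕ, 1 ≤ v ∧ PS Set.univ {x | x ∈ Zone c0 m q G ∧ (1 + Q * v) * x ∈ Zone c0 m q G ∧
      ∀ f : ℕ, f ≤ P → f * v ≤ x ∧
        K y (x + f * v) = K (y + (1 + Q * y) * v) ((1 + Q * v) * x) ∧
        K y (x - f * v) = K (y + (1 + Q * y) * v) ((1 + Q * v) * x)} := by
  classical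
  by_contra hgoal
  have step : ∀ n : ℕ, n ≤ #T0 + 1 → ∃ (T : Finset κ) (y v : κ → ℕ) (y0 : ℕ) (B : Set ℕ),
      T ⊆ T0 ∧ #T = n ∧ LG c0 q (m * (#T0 + 3)) (n + 1) G B ∧ ∀ t ∈ T, 1 ≤ v t ∧
        y0 = y t + (1 + Q * y t) * v t ∧
        ∀ u ∈ B, ∃ x : ℕ, u = (1 + Q * v t) * x ∧ x ∈ Zone c0 m q G ∧ ∀ f : ℕ, f ≤ P → f * v t ≤ x ∧
          K (y t) (x + f * v t) = t ∧ K (y t) (x - f * v t) = t := by
    intro n
    induction n with
    | zero =>
      exact fun _ => ⟨∅, fun _ => 0, fun _ => 0, 0, Set.univ, Finset.empty_subset _, rfl,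
        lg_univ hG hc1 hq, fun t ht => by simp at ht⟩
    | succ n ih =>
      intro hn
      obtain ⟨T, y, v, y0, B, hT0, hT, hB, hinv⟩ := ih (by omega)
      have h1 : LG c0 q (m * (#T0 + 3)) (n + 1) G
          {u | ∃ t ∈ T0, u ∈ {u | u ∈ B ∧ u ∈ Zone c0 m q G ∧ K y0 u = t}} :=
        (hB.zone hc1 (Nat.mul_lt_mul_of_pos_left (by omega) hm1)).mono fun u hu => ⟨K y0 u, hK _ _, hu.1, hu.2, rfl⟩
      obtain ⟨c, hc0, hc⟩ := LG.finUnion _ _ h1
      have hcT : c ∉ T := by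
        intro hcT
        obtain ⟨hv, hy, hx⟩ := hinv c hcT
        refine hgoal ⟨y c, v c, hv, ?_⟩
        refine (hc.ps.contract (1 + Q * v c) (by omega) fun u hu => ?_).mono ?_
        · obtain ⟨x, h2, -⟩ := hx u hu.1
          exact ⟨x, h2⟩
        · rintro x ⟨hxB, hxZ, hxK⟩
          obtain ⟨x', h2, h8, h3⟩ := hx _ hxB
          have h4 : x = x' := Nat.eq_of_mul_eq_mul_left (by omega) h2
          subst h4
          refine ⟨h8, hxZ, fun f hf => ?_⟩
          obtain ⟨h5, h6, h7⟩ := h3 f hf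
          rw [← hy, hxK]
          exact ⟨h5, h6, h7⟩
      set B1 : Set ℕ := {u | u ∈ B ∧ u ∈ Zone c0 m q G ∧ K y0 u = c} with hB1
      set v1 : κ → ℕ := fun t => if t = c then 0 else v t with hv1
      set y1 : κ → ℕ := fun t => if t = c then y0 else y t with hy1
      have hinv1 : ∀ t ∈ insert c T, y0 = y1 t + (1 + Q * y1 t) * v1 t ∧ ∀ u ∈ B1, ∃ x : ℕ,
          u = (1 + Q * v1 t) * x ∧ x ∈ Zone c0 m q G ∧ ∀ f : ℕ, f ≤ P → f * v1 t ≤ x ∧
          K (y1 t) (x + f * v1 t) = t ∧ K (y1 t) (x - f * v1 t) = t := by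
        intro t ht
        by_cases htc : t = c
        · have e : v1 t = 0 := by simp [hv1, htc]
          have e' : y1 t = y0 := by simp [hy1, htc]
          rw [e, e', htc]
          exact ⟨by simp, fun u hu => ⟨u, by simp, hu.2.1, fun f _ =>
            ⟨by simp, by simpa using hu.2.2, by simpa using hu.2.2⟩⟩⟩
        · have e : v1 t = v t := by simp [hv1, htc]
          have e' : y1 t = y t := by simp [hy1, htc]
          rw [e, e']
          have h2 := (hinv t ((Finset.mem_insert.mp ht).resolve_left htc)).2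
          exact ⟨h2.1, fun u hu => h2.2 u hu.1⟩
      obtain ⟨z, hz, hD⟩ := hc.step (le_trans (by omega) (Nat.le_mul_of_pos_left _ hm1))
        (Nat.mul_pos hm1 (by omega)) hQ
        (∑ t ∈ insert c T, P * (1 + Q * v1 t) ^ 2)
      refine ⟨insert c T, y1, fun t => v1 t + (1 + Q * v1 t) * z, y0 + (1 + Q * y0) * z, _,
        Finset.insert_subset hc0 hT0,
        by rw [Finset.card_insert_of_notMem hcT, hT], hD,
        fun t ht => ⟨by nlinarith [Nat.zero_le (v1 t), Nat.zero_le (Q * v1 t * z)], ?_, ?_⟩⟩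
      · have h2 := (hinv1 t ht).1
        beta_reduce
        generalize y1 t = a at h2 ⊢
        generalize v1 t = b at h2 ⊢
        rw [h2]; ring
      rintro w ⟨u, hu, rfl⟩
      beta_reduce
      have hP : P * (1 + Q * v1 t) ^ 2 ≤ ∑ t ∈ insert c T, P * (1 + Q * v1 t) ^ 2 :=
        Finset.single_le_sum (f := fun t => P * (1 + Q * v1 t) ^ 2) (fun _ _ => Nat.zero_le _) ht
      obtain ⟨x, hx, hxZ, -⟩ := (hinv1 t ht).2 u (by simpa using (hu 0 (Nat.zero_le _)).2.1)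
      refine ⟨x, by rw [hx]; ring, hxZ, fun f hf => ?_⟩
      obtain ⟨hle, hp, hm⟩ := hu (f * (1 + Q * v1 t) ^ 2)
        (le_trans (Nat.mul_le_mul_right _ hf) hP)
      obtain ⟨xp, hxp, -, hp0⟩ := (hinv1 t ht).2 _ hp
      obtain ⟨xm, hxm, -, hm0⟩ := (hinv1 t ht).2 _ hm
      obtain ⟨-, hp1, -⟩ := hp0 f hf
      obtain ⟨hm2, -, hm1⟩ := hm0 f hf
      set Y := 1 + Q * v1 t with hY
      have hYpos : 0 < Y := by omega
      have hx1 : x = xm + f * Y * z := by
        apply Nat.eq_of_mul_eq_mul_left hYpos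
        have : Y * (xm + f * Y * z) = Y * xm + f * Y ^ 2 * z := by ring
        omega
      have hxp1 : xp = x + f * Y * z := by
        apply Nat.eq_of_mul_eq_mul_left hYpos
        have e1 : Y * (x + f * Y * z) = Y * x + f * Y ^ 2 * z := by ring
        omega
      have e2 : f * (v1 t + Y * z) = f * v1 t + f * Y * z := by ring
      refine ⟨by omega, ?_, ?_⟩
      · have e3 : x + f * (v1 t + Y * z) = xp + f * v1 t := by omega
        rw [e3]; exact hp1
      · have e3 : x - f * (v1 t + Y * z) = xm - f * v1 t := by omega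
        rw [e3]; exact hm1
  obtain ⟨T, -, -, -, -, hT0, hT, -⟩ := step (#T0 + 1) le_rfl
  have := Finset.card_le_card hT0
  omega

end Pool.Agent.MP_d19b84_nt.H13
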