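import Mathlib
import Pool.Agent.MP_d19b84_nt.h13.PS

set_option autoImplicit false

namespace Pool.Agent.MP_d19b84_nt.H13

open Finset

/-- The first index at which `b` reaches `V`. -/
noncomputable def nu (b : ℕ → ℕ) (V : ℕ) : ℕ := sInf {n | V ≤ b n}

theorem le_b_nu {b : ℕ → ℕ} (hb : StrictMono b) (V : ℕ) : V ≤ b (nu b V) :=
  Nat.sInf_mem (s := {n | V ≤ b n}) ⟨V, hb.id_le V⟩

theorem nu_le {b : ℕ → ℕ} {V n : ℕ} (h : V ≤ b n) : nu b V ≤ n := Nat.sInf_le h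

theorem nu_b {b : ℕ → ℕ} (hb : StrictMono b) (n : ℕ) : nu b (b n) = n :=
  le_antisymm (nu_le le_rfl) (hb.le_iff_le.mp (le_b_nu hb _))

/-- Local difference and residue of `b` at the value `V`. -/
noncomputable def dd (b : ℕ → ℕ) (V : ℕ) : ℕ := b (nu b V + 1) - b (nu b V)

noncomputable def rr (b : ℕ → ℕ) (V : ℕ) : ℕ := b (nu b V) % dd b V

theorem loc_type {b : ℕ → ℕ} (hb : StrictMono b) {n0 d h : ℕ}
    (hap : ∀ m, m ≤ h + 1 → b (n0 + m) = b n0 + m * d) {V : ℕ} (h1 : b n0 ≤ V)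
    (h2 : V ≤ b n0 + h * d) : dd b V = d ∧ rr b V = b n0 % d := by
  have h3 : nu b V ≤ n0 + h := nu_le (by rw [hap h (by omega)]; exact h2)
  have h4 : n0 ≤ nu b V := hb.le_iff_le.mp (le_trans h1 (le_b_nu hb V))
  obtain ⟨m, hm⟩ := Nat.exists_eq_add_of_le h4
  have e1 := hap m (by omega)
  have e2 := hap (m + 1) (by omega)
  have e3 : dd b V = d := by
    unfold dd
    rw [hm, add_assoc, e1, e2, add_mul]
    omega
  refine ⟨e3, ?_⟩
  unfold rr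
  rw [e3, hm, e1, Nat.add_mul_mod_self_right]

theorem loc_pt {β d h Z : ℕ} (hd : 1 ≤ d) (h1 : β ≤ Z) (h2 : Z ≤ β + h * d)
    (h3 : Z % d = β % d) : ∃ m, m ≤ h ∧ Z = β + m * d := by
  obtain ⟨m, hm⟩ : d ∣ Z - β := (Nat.modEq_iff_dvd' h1).mp h3.symm
  have e : d * m = m * d := Nat.mul_comm _ _
  refine ⟨m, Nat.le_of_mul_le_mul_right (by omega) hd, by omega⟩

/-- The value `V` lies deep inside a stretch where `b` is an arithmetic progression. -/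
def Good (a b : ℕ → ℕ) (w : ℕ → ℝ) (α : ℝ) (P R V : ℕ) : Prop :=
  ∃ n0 d h : ℕ, 1 ≤ d ∧ d ≤ P ∧ b n0 + R ≤ V ∧ V + R ≤ b n0 + h * d ∧
    (∀ m, m ≤ h + 1 → b (n0 + m) = b n0 + m * d) ∧
    ∀ m, m ≤ h → (a (n0 + m) : ℝ) = α * b (n0 + m) + w (n0 + m + 1) - w (n0 + m)

theorem not_ps_bad {a b : ℕ → ℕ} {w : ℕ → ℝ} {α : ℝ} {P : ℕ} {S : Set ℕ} (hb : StrictMono b)
    (hrun : ∀ c g : ℕ, ∃ L : ℕ, ∀ N ∈ S, L ≤ N → ∀ t : ℕ, N ≤ c * t → t ≤ c * N →
      ∃ n : ℕ, t ≤ b n ∧ b n ≤ t + L ∧ ∀ m : ℕ, n ≤ m → m ≤ n + g →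
        b (m + 1) ≤ b m + P ∧ b (m + 2) + b m = 2 * b (m + 1) ∧
          (a m : ℝ) = α * b m + w (m + 1) - w m)
    (Q R : ℕ) (hQ : 1 ≤ Q) : ¬ PS S {s | ¬ Good a b w α P R (Q * s)} := by
  rintro ⟨g, c, hg⟩
  obtain ⟨L0, hL0⟩ := hrun (c * Q) (2 * R + Q * (g + 1))
  obtain ⟨N, hN, hL, t, h1, h2, ht⟩ := hg (L0 + R + 1)
  obtain ⟨n0, h3, h4, hreg⟩ := hL0 N hN (by omega) (Q * t)
    (calc N ≤ 1 * 1 * (c * t) := by omega
      _ ≤ Q * Q * (c * t) := Nat.mul_le_mul_right _ (Nat.mul_le_mul hQ hQ)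
      _ = c * Q * (Q * t) := by ring)
    (calc Q * t ≤ Q * (c * N) := Nat.mul_le_mul_left _ (by omega)
      _ = c * Q * N := by ring)
  have hdm := Nat.div_add_mod (b n0 + R) Q
  have hlt : (b n0 + R) % Q < Q := Nat.mod_lt _ hQ
  generalize (b n0 + R) / Q = s at hdm
  generalize (b n0 + R) % Q = r at hdm hlt
  have e1 : Q * (s + 1) = Q * s + Q := by ring
  have h5 : t ≤ s + 1 := Nat.le_of_mul_le_mul_left (by omega) hQ
  have h6 : s ≤ t + (L0 + R) := by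
    have e2 : Q * (t + (L0 + R)) = Q * t + Q * (L0 + R) := by ring
    have e3 : L0 + R ≤ Q * (L0 + R) := Nat.le_mul_of_pos_left _ hQ
    exact Nat.le_of_mul_le_mul_left (by omega) hQ
  obtain ⟨e, he, hm⟩ := ht (s + 1) h5 (by omega)
  apply hm
  have hlt0 : b n0 < b (n0 + 1) := hb (by omega)
  obtain ⟨d, hd⟩ : ∃ d, b (n0 + 1) = b n0 + d := ⟨b (n0 + 1) - b n0, by omega⟩
  have hP := (hreg n0 le_rfl (by omega)).1
  set G := 2 * R + Q * (g + 1) with hG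
  have hap : ∀ m, m ≤ G → b (n0 + m) = b n0 + m * d ∧ b (n0 + (m + 1)) = b n0 + (m + 1) * d := by
    intro m
    induction m with
    | zero => intro _; simp [hd]
    | succ m ih =>
      intro hm
      obtain ⟨i1, i2⟩ := ih (by omega)
      refine ⟨i2, ?_⟩
      have i3 := (hreg (n0 + m) (by omega) (by omega)).2.1
      have e2 : (m + 1 + 1) * d = m * d + d + d := by ring
      have e3 : (m + 1) * d = m * d + d := by ring
      have e4 : n0 + (m + 1 + 1) = n0 + m + 2 := by ring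
      have e5 : n0 + (m + 1) = n0 + m + 1 := by ring
      rw [e4]; rw [e5] at i2
      omega
  have e6 : Q * (s + 1 + e) = Q * s + Q * (e + 1) := by ring
  have e7 : Q * (e + 1) ≤ Q * (g + 1) := Nat.mul_le_mul_left _ (by omega)
  have e8 : Q ≤ Q * (e + 1) := Nat.le_mul_of_pos_right _ (by omega)
  have e9 : G ≤ G * d := Nat.le_mul_of_pos_right _ (by omega)
  refine ⟨n0, d, G, by omega, by omega, by omega, by omega, fun m hm => ?_,
    fun m hm => (hreg (n0 + m) (by omega) (by omega)).2.2⟩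
  rcases Nat.eq_zero_or_pos m with rfl | hpos
  · simp
  · obtain ⟨k, rfl⟩ : ∃ k, m = k + 1 := ⟨m - 1, by omega⟩
    exact (hap k (by omega)).2

theorem tele {a b : ℕ → ℕ} {w : ℕ → ℝ} {α : ℝ} {n0 d h m : ℕ}
    (hap : ∀ m, m ≤ h + 1 → b (n0 + m) = b n0 + m * d)
    (ha : ∀ m, m ≤ h → (a (n0 + m) : ℝ) = α * b (n0 + m) + w (n0 + m + 1) - w (n0 + m)) :
    ∀ l : ℕ, m + l ≤ h + 1 → ((∑ e ∈ range l, a (n0 + m + e) : ℕ) : ℝ) =
      α * (l * ((b n0 : ℝ) + m * d) + d * (l * (l - 1) / 2)) + w (n0 + m + l) - w (n0 + m) := by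
  intro l
  induction l with
  | zero => intro _; simp
  | succ l ih =>
    intro hl
    have h1 := ha (m + l) (by omega)
    rw [hap (m + l) (by omega), ← add_assoc] at h1
    rw [Finset.sum_range_succ, Nat.cast_add, ih (by omega), h1, ← add_assoc]
    push_cast
    ring

theorem main (a b : ℕ → ℕ) (w : ℕ → ℝ) (α C : ℝ) (P : ℕ) (S : Set ℕ) (hS : S.Infinite)
    (hb : StrictMono b) (hw : ∀ n, |w n| ≤ C)
    (hrun : ∀ c g : ℕ, ∃ L : ℕ, ∀ N ∈ S, L ≤ N → ∀ t : ℕ, N ≤ c * t → t ≤ c * N →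
      ∃ n : ℕ, t ≤ b n ∧ b n ≤ t + L ∧ ∀ m : ℕ, n ≤ m → m ≤ n + g →
        b (m + 1) ≤ b m + P ∧ b (m + 2) + b m = 2 * b (m + 1) ∧
          (a m : ℝ) = α * b m + w (m + 1) - w m) :
    ∃ i j k : ℕ, j < k ∧ k < i ∧ a i = ∑ m ∈ Finset.Icc j k, a m := by
  classical
  set Q := P.factorial with hQdef
  have hQ : 1 ≤ Q := P.factorial_pos
  set col : ℕ → ℤ := fun n => ⌊2 * w n⌋ with hcol
  set J : Finset ℤ := Finset.Icc ⌊-(2 * C)⌋ ⌊2 * C⌋ with hJ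
  have hcolJ : ∀ n, col n ∈ J := by
    intro n
    have h := abs_le.mp (hw n)
    exact Finset.mem_Icc.mpr ⟨Int.floor_le_floor (by linarith), Int.floor_le_floor (by linarith)⟩
  have hclose : ∀ m n, col m = col n → |w m - w n| < 1 / 2 := by
    intro m n h
    have h1 := Int.abs_sub_lt_one_of_floor_eq_floor h
    have h2 := abs_lt.mp h1
    exact abs_lt.mpr ⟨by linarith, by linarith⟩
  set K : ℕ → ℕ → ℕ × ℕ × ℤ × ℤ := fun y s =>
    (min (dd b (Q * s)) P, min (rr b (Q * s)) P,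
      col (nu b (Q * s + (1 + 2 * Q * y) * rr b (Q * s)) + 1),
      col (nu b (Q * s + (1 + 2 * Q * y) * rr b (Q * s)))) with hK
  obtain ⟨y, v, hv, hX⟩ := pattern hS (range (P + 1) ×ˢ range (P + 1) ×ˢ J ×ˢ J) K
    (fun y s => by
      simp only [hK, Finset.mem_product, Finset.mem_range]
      exact ⟨by omega, by omega, hcolJ _, hcolJ _⟩) (2 * Q) P
  set Y := 1 + 2 * Q * v with hY
  set Y0 := 1 + 2 * Q * y with hY0
  set R := Q * (P * v) + Y0 * Y * P + P with hR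
  have hbad := not_ps_bad hb hrun Q R hQ
  have hbad2 : ¬ PS S {x | ¬ Good a b w α P R (Q * (Y * x))} := by
    intro h
    apply hbad
    refine (h.dilate Y (by omega)).mono ?_
    rintro _ ⟨u, hu, rfl⟩
    exact hu
  obtain ⟨x, hx, hg1, hg2⟩ : ∃ x, (∀ f : ℕ, f ≤ P → f * v ≤ x ∧
      K y (x + f * v) = K (y + Y0 * v) (Y * x) ∧ K y (x - f * v) = K (y + Y0 * v) (Y * x)) ∧
      Good a b w α P R (Q * x) ∧ Good a b w α P R (Q * (Y * x)) := by
    by_contra hc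
    have h1 : PS S ({s | ¬ Good a b w α P R (Q * s)} ∪ {x | ¬ Good a b w α P R (Q * (Y * x))}) := by
      refine hX.mono fun x hx => ?_
      by_contra h2
      apply hc
      refine ⟨x, hx, ?_, ?_⟩
      · by_contra h3; exact h2 (Or.inl h3)
      · by_contra h3; exact h2 (Or.inr h3)
    exact h1.union.elim hbad hbad2
  obtain ⟨n0, d, h, hd1, hdP, hlo, hhi, hap, ha⟩ := hg1
  obtain ⟨n1, d1, h1, hd11, hd1P, hlo1, hhi1, hap1, ha1⟩ := hg2
  obtain ⟨hle, hp, hm⟩ := hx d hdP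
  obtain ⟨xm, rfl⟩ : ∃ xm, x = xm + d * v := ⟨x - d * v, by omega⟩
  rw [Nat.add_sub_cancel] at hm
  have b1 : Q * (d * v) ≤ Q * (P * v) := Nat.mul_le_mul_left _ (Nat.mul_le_mul_right _ hdP)
  have b2 : Q * (xm + d * v) = Q * xm + Q * (d * v) := by ring
  have b3 : Q * (xm + d * v + d * v) = Q * xm + Q * (d * v) + Q * (d * v) := by ring
  obtain ⟨t1, t2⟩ := loc_type hb hap (V := Q * xm) (by omega) (by omega)
  obtain ⟨t3, t4⟩ := loc_type hb hap (V := Q * (xm + d * v + d * v)) (by omega) (by omega)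
  obtain ⟨t5, t6⟩ := loc_type hb hap1 (V := Q * (Y * (xm + d * v))) (by omega) (by omega)
  simp only [hK, Prod.mk.injEq, t1, t2, t3, t4, t5, t6] at hp hm
  obtain ⟨c1, c2, c3, -⟩ := hp
  obtain ⟨-, -, -, c4⟩ := hm
  have r1 : b n0 % d < d := Nat.mod_lt _ hd1
  have r2 : b n1 % d1 < d1 := Nat.mod_lt _ hd11
  have hdd : d1 = d := by omega
  subst hdd
  have hrr : b n1 % d1 = b n0 % d1 := by omega
  rw [hrr] at c3 c4
  set ρ := b n0 % d1 with hρ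
  have hYY : 1 + 2 * Q * (y + Y0 * v) = Y0 * Y := by rw [hY0, hY]; ring
  rw [hYY] at c3 c4
  rw [← hY0] at c3 c4
  obtain ⟨q, hq⟩ : d1 ∣ Q := Nat.dvd_factorial hd1 hdP
  have b4 : Y0 * Y * ρ ≤ Y0 * Y * P := Nat.mul_le_mul_left _ (by omega)
  have b5 : Y0 * ρ ≤ Y0 * Y * ρ :=
    Nat.mul_le_mul_right _ (Nat.le_mul_of_pos_right _ (by omega))
  have m1 : (Q * xm + Y0 * ρ) % d1 = b n0 % d1 := by
    have : Q * xm + Y0 * ρ = ρ + d1 * (q * xm + 2 * q * y * ρ) := by rw [hY0, hq]; ring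
    rw [this, Nat.add_mul_mod_self_left, hρ, Nat.mod_mod]
  have m2 : (Q * (Y * (xm + d1 * v)) + Y0 * Y * ρ) % d1 = b n1 % d1 := by
    have : Q * (Y * (xm + d1 * v)) + Y0 * Y * ρ =
        ρ + d1 * (q * (Y * (xm + d1 * v)) + 2 * q * (y + Y0 * v) * ρ) := by
      rw [← hYY, hq]; ring
    rw [this, Nat.add_mul_mod_self_left, hrr, hρ, Nat.mod_mod]
  obtain ⟨m, hmh, hmZ⟩ := loc_pt (h := h) hd1 (by omega) (by omega) m1
  obtain ⟨i, hih, hiZ⟩ := loc_pt (h := h1) hd1 (by omega) (by omega) m2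
  have b6 : (m + 2 * Q * v) * d1 = m * d1 + Q * (d1 * v) + Q * (d1 * v) := by ring
  have hkh : m + 2 * Q * v ≤ h := Nat.le_of_mul_le_mul_right (by omega) hd1
  have n2 : Q * (xm + d1 * v + d1 * v) + Y0 * ρ = b (n0 + (m + 2 * Q * v)) := by
    rw [hap _ (by omega)]; omega
  have n3 : Q * xm + Y0 * ρ = b (n0 + m) := by rw [hap _ (by omega)]; omega
  have n4 : Q * (Y * (xm + d1 * v)) + Y0 * Y * ρ = b (n1 + i) := by
    rw [hap1 _ (by omega)]; omega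
  rw [n2, n4, nu_b hb, nu_b hb] at c3
  rw [n3, n4, nu_b hb, nu_b hb] at c4
  have hQv : 1 ≤ Q * v := Nat.mul_pos hQ hv
  have e2Q : 2 * Q * v = 2 * (Q * v) := by ring
  have hid : b (n1 + i) = Y * (b (n0 + m) + Q * (d1 * v)) := by rw [← n4, ← n3]; ring
  refine ⟨n1 + i, n0 + m, n0 + (m + 2 * Q * v), by omega, hb.lt_iff_lt.mp ?_, ?_⟩
  · have e1 : b (n0 + (m + 2 * Q * v)) = b (n0 + m) + Q * (d1 * v) + Q * (d1 * v) := by omega
    have e3 : 1 ≤ Q * (d1 * v) := Nat.mul_pos hQ (Nat.mul_pos hd1 hv)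
    have e4 : 3 * (b (n0 + m) + Q * (d1 * v)) ≤ Y * (b (n0 + m) + Q * (d1 * v)) :=
      Nat.mul_le_mul_right _ (by omega)
    omega
  · have s1 : ∑ e ∈ Finset.Icc (n0 + m) (n0 + (m + 2 * Q * v)), a e =
        ∑ e ∈ range Y, a (n0 + m + e) := by
      rw [← Finset.Ico_add_one_right_eq_Icc, Finset.sum_Ico_eq_sum_range]
      have : n0 + (m + 2 * Q * v) + 1 - (n0 + m) = Y := by omega
      rw [this]
    have s2 := tele (m := m) hap ha Y (by omega)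
    have s3 := ha1 i hih
    have s4 := abs_lt.mp (hclose _ _ c3)
    have s5 := abs_lt.mp (hclose _ _ c4)
    have s6 : n0 + m + Y = n0 + (m + 2 * Q * v) + 1 := by omega
    have s7 : (b (n1 + i) : ℝ) =
        Y * ((b n0 : ℝ) + m * d1) + d1 * ((Y : ℝ) * (Y - 1) / 2) := by
      rw [hid, hap m (by omega), hY]; push_cast; ring
    rw [s1]
    rw [s6, ← s7] at s2
    have s8 : ((a (n1 + i) : ℕ) : ℝ) < ((∑ e ∈ range Y, a (n0 + m + e) : ℕ) : ℝ) + 1 := by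
      linarith
    have s9 : ((∑ e ∈ range Y, a (n0 + m + e) : ℕ) : ℝ) < ((a (n1 + i) : ℕ) : ℝ) + 1 := by
      linarith
    have s10 : a (n1 + i) < (∑ e ∈ range Y, a (n0 + m + e)) + 1 := by exact_mod_cast s8
    have s11 : (∑ e ∈ range Y, a (n0 + m + e)) < a (n1 + i) + 1 := by exact_mod_cast s9
    omega

end Pool.Agent.MP_d19b84_nt.H13
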