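import Mathlib
import Pool.Agent.MP_d19b84_nt.h13.Main
import Pool.Agent.MP_d19b84_nt.h13.Chain

set_option autoImplicit false

namespace Pool.Agent.MP_d19b84_nt.H13

open Finset

theorem cnt_eq (X : Set ℕ) (u n : ℕ) : (X ∩ Set.Ico u (u + n)).ncard = cnt X u n := by
  classical
  unfold cnt
  rw [← Set.ncard_coe_finset]
  apply congrArg
  ext k
  simp [and_comm]

theorem fd_of_ncard {G : Set ℕ}
    (hG : ∃ r : ℕ, ∀ M : ℕ, ∃ u n : ℕ, M ≤ n ∧ n ≤ r * (G ∩ Set.Ico u (u + n)).ncard) :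
    FD fun _ => G := by
  obtain ⟨r, hr⟩ := hG
  refine ⟨2 * r, fun L => ?_⟩
  obtain ⟨u, n, h1, h2⟩ := hr (2 * (r * L) + 2 * L)
  obtain ⟨n', rfl⟩ : ∃ n', n = L + n' := ⟨n - L, by omega⟩
  refine ⟨u + L, n', by omega, by omega, ?_⟩
  have h3 : (G ∩ Set.Ico u (u + (L + n'))).ncard ≤ L + (G ∩ Set.Ico (u + L) (u + L + n')).ncard := by
    have h4 : G ∩ Set.Ico u (u + (L + n')) ⊆
        Set.Ico u (u + L) ∪ G ∩ Set.Ico (u + L) (u + L + n') := by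
      rintro k ⟨hk, h5, h6⟩
      by_cases h7 : k < u + L
      · exact Or.inl ⟨h5, h7⟩
      · exact Or.inr ⟨hk, by omega, by omega⟩
    have h5 := Set.ncard_le_ncard h4
      ((Set.finite_Ico _ _).union ((Set.finite_Ico _ _).inter_of_right _))
    have h6 := Set.ncard_union_le (Set.Ico u (u + L)) (G ∩ Set.Ico (u + L) (u + L + n'))
    have h7 : (Set.Ico u (u + L)).ncard = L := by
      rw [← Finset.coe_Ico, Set.ncard_coe_finset, Nat.card_Ico]; omega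
    omega
  rw [cnt_eq G (u + L) n'] at h3
  have h8 := Nat.mul_le_mul_left r h3
  rw [Nat.mul_add r L] at h8
  beta_reduce
  rw [Nat.mul_assoc]
  omega

theorem not_ps_badG {a b : ℕ → ℕ} {w : ℕ → ℝ} {α : ℝ} {P c0 m0 : ℕ} {G : Set ℕ}
    (hm0 : 1 ≤ m0) (hb : StrictMono b)
    (hrun : ∀ g : ℕ, ∃ L : ℕ, ∀ k ∈ G, L ≤ k → ∀ t : ℕ, c0 * 2 ^ k ≤ t →
      m0 * t < (m0 + 1) * (c0 * 2 ^ k) →
      ∃ n : ℕ, t ≤ b n ∧ b n ≤ t + L ∧ ∀ m : ℕ, n ≤ m → m ≤ n + g →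
        b (m + 1) ≤ b m + P ∧ b (m + 2) + b m = 2 * b (m + 1) ∧
          (a m : ℝ) = α * b m + w (m + 1) - w m)
    (Q R : ℕ) (hQ : 1 ≤ Q) : 
    ¬ PS Set.univ {s | s ∈ Zone c0 m0 Q G ∧ ¬ Good a b w α P R (Q * s)} := by
  rintro ⟨g, c, hg⟩
  obtain ⟨L0, hL0⟩ := hrun (2 * R + Q * (g + 1))
  obtain ⟨E, hE⟩ : ∃ E : ℕ, c0 * 2 ^ (L0 + 1) = E := ⟨_, rfl⟩
  obtain ⟨N, -, -, t0, -, -, ht⟩ := hg (E + g + L0 + R + 1)
  obtain ⟨d0, hd0, ⟨k, hkG, hk1, hk2⟩, -⟩ := ht (t0 + E) (by omega) (by omega)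
  set t := t0 + E + d0 with htdef
  have hk3 : L0 ≤ k := by
    have e0 : t ≤ Q * t := Nat.le_mul_of_pos_left _ hQ
    have e2 : m0 * (Q * t) < m0 * (c0 * 2 ^ (k + 1)) := by
      refine lt_of_lt_of_le hk2 ?_
      calc (m0 + 1) * (c0 * 2 ^ k) ≤ (m0 + m0) * (c0 * 2 ^ k) := Nat.mul_le_mul_right _ (by omega)
        _ = m0 * (c0 * 2 ^ (k + 1)) := by ring
    have e1 : 2 ^ (L0 + 1) < 2 ^ (k + 1) := by
      refine Nat.lt_of_mul_lt_mul_left (a := c0) ?_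
      rw [hE]; exact lt_of_le_of_lt (le_trans (by omega) e0) (Nat.lt_of_mul_lt_mul_left e2)
    have := (Nat.pow_lt_pow_iff_right (by norm_num : 1 < 2)).mp e1
    omega
  obtain ⟨n0, h3, h4, hreg⟩ := hL0 k hkG hk3 (Q * t) hk1 hk2
  have hdm := Nat.div_add_mod (b n0 + R) Q
  have hlt : (b n0 + R) % Q < Q := Nat.mod_lt _ hQ
  generalize (b n0 + R) / Q = s at hdm
  generalize (b n0 + R) % Q = r at hdm hlt
  have e1 : Q * (s + 1) = Q * s + Q := by ring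
  have h5 : t ≤ s + 1 := Nat.le_of_mul_le_mul_left (by omega) hQ
  have h6 : s ≤ t + (L0 + R) := by
    have e2 : Q * (t + (L0 + R)) = Q * t + Q * (L0 + R) := by ring
    have e3 : L0 + R ≤ Q * (L0 + R) := Nat.le_mul_of_pos_left _ hQ
    exact Nat.le_of_mul_le_mul_left (by omega) hQ
  obtain ⟨e, he, -, hm⟩ := ht (s + 1) (by omega) (by omega)
  apply hm
  have hlt0 : b n0 < b (n0 + 1) := hb (by omega)
  obtain ⟨d, hd⟩ : ∃ d, b (n0 + 1) = b n0 + d := ⟨b (n0 + 1) - b n0, by omega⟩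
  have hP := (hreg n0 le_rfl (by omega)).1
  set G0 := 2 * R + Q * (g + 1) with hG0
  have hap : ∀ m, m ≤ G0 → b (n0 + m) = b n0 + m * d ∧ b (n0 + (m + 1)) = b n0 + (m + 1) * d := by
    intro m
    induction m with
    | zero => intro _; simp [hd]
    | succ m ih =>
      intro hm
      obtain ⟨i1, i2⟩ := ih (by omega)
      refine ⟨i2, ?_⟩
      have i3 := (hreg (n0 + m) (by omega) (by omega)).2.1
      have e2 : (m + 1 + 1) * d = m * d + d + d := by ring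
      have e3 : (m + 1) * d = m * d + d := by ring
      have e4 : n0 + (m + 1 + 1) = n0 + m + 2 := by ring
      have e5 : n0 + (m + 1) = n0 + m + 1 := by ring
      rw [e4]; rw [e5] at i2
      omega
  have e6 : Q * (s + 1 + e) = Q * s + Q * (e + 1) := by ring
  have e7 : Q * (e + 1) ≤ Q * (g + 1) := Nat.mul_le_mul_left _ (by omega)
  have e8 : Q ≤ Q * (e + 1) := Nat.le_mul_of_pos_right _ (by omega)
  have e9 : G0 ≤ G0 * d := Nat.le_mul_of_pos_right _ (by omega)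
  refine ⟨n0, d, G0, by omega, by omega, by omega, by omega, fun m hm => ?_,
    fun m hm => (hreg (n0 + m) (by omega) (by omega)).2.2⟩
  rcases Nat.eq_zero_or_pos m with rfl | hpos
  · simp
  · obtain ⟨k, rfl⟩ : ∃ k, m = k + 1 := ⟨m - 1, by omega⟩
    exact (hap k (by omega)).2

theorem mainG (a b : ℕ → ℕ) (w : ℕ → ℝ) (α C : ℝ) (P c0 m0 : ℕ) (hc0 : 1 ≤ c0) (hm0 : 1 ≤ m0)
    (G : Set ℕ)
    (hG : ∃ r : ℕ, ∀ M : ℕ, ∃ u n : ℕ, M ≤ n ∧ n ≤ r * (G ∩ Set.Ico u (u + n)).ncard)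
    (hb : StrictMono b) (hw : ∀ n, |w n| ≤ C)
    (hrun : ∀ g : ℕ, ∃ L : ℕ, ∀ k ∈ G, L ≤ k → ∀ t : ℕ, c0 * 2 ^ k ≤ t →
      m0 * t < (m0 + 1) * (c0 * 2 ^ k) →
      ∃ n : ℕ, t ≤ b n ∧ b n ≤ t + L ∧ ∀ m : ℕ, n ≤ m → m ≤ n + g →
        b (m + 1) ≤ b m + P ∧ b (m + 2) + b m = 2 * b (m + 1) ∧
          (a m : ℝ) = α * b m + w (m + 1) - w m) :
    ∃ i j k : ℕ, j < k ∧ k < i ∧ a i = ∑ m ∈ Finset.Icc j k, a m := by
  classical
  set Q := P.factorial with hQdef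
  have hQ : 1 ≤ Q := P.factorial_pos
  set col : ℕ → ℤ := fun n => ⌊2 * w n⌋ with hcol
  set J : Finset ℤ := Finset.Icc ⌊-(2 * C)⌋ ⌊2 * C⌋ with hJ
  have hcolJ : ∀ n, col n ∈ J := by
    intro n
    have h := abs_le.mp (hw n)
    exact Finset.mem_Icc.mpr ⟨Int.floor_le_floor (by linarith), Int.floor_le_floor (by linarith)⟩
  have hclose : ∀ m n, col m = col n → |w m - w n| < 1 / 2 := by
    intro m n h
    have h1 := Int.abs_sub_lt_one_of_floor_eq_floor h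
    have h2 := abs_lt.mp h1
    exact abs_lt.mpr ⟨by linarith, by linarith⟩
  set K : ℕ → ℕ → ℕ × ℕ × ℤ × ℤ := fun y s =>
    (min (dd b (Q * s)) P, min (rr b (Q * s)) P,
      col (nu b (Q * s + (1 + 2 * Q * y) * rr b (Q * s)) + 1),
      col (nu b (Q * s + (1 + 2 * Q * y) * rr b (Q * s)))) with hK
  obtain ⟨y, v, hv, hX⟩ := patternG (fd_of_ncard hG) hc0 hm0 hQ (range (P + 1) ×ˢ range (P + 1) ×ˢ J ×ˢ J) K
    (fun y s => by
      simp only [hK, Finset.mem_product, Finset.mem_range]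
      exact ⟨by omega, by omega, hcolJ _, hcolJ _⟩) (Q := 2 * Q) (by omega) P
  set Y := 1 + 2 * Q * v with hY
  set Y0 := 1 + 2 * Q * y with hY0
  set R := Q * (P * v) + Y0 * Y * P + P with hR
  have hbad := not_ps_badG hm0 hb hrun Q R hQ
  have hbad2 : ¬ PS Set.univ
      {x | Y * x ∈ Zone c0 m0 Q G ∧ ¬ Good a b w α P R (Q * (Y * x))} := by
    intro h
    apply hbad
    refine (h.dilate Y (by omega)).mono ?_
    rintro _ ⟨u, hu, rfl⟩
    exact hu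
  obtain ⟨x, hx, hg1, hg2⟩ : ∃ x, (∀ f : ℕ, f ≤ P → f * v ≤ x ∧
      K y (x + f * v) = K (y + Y0 * v) (Y * x) ∧ K y (x - f * v) = K (y + Y0 * v) (Y * x)) ∧
      Good a b w α P R (Q * x) ∧ Good a b w α P R (Q * (Y * x)) := by
    by_contra hc
    have h1 : PS Set.univ ({s | s ∈ Zone c0 m0 Q G ∧ ¬ Good a b w α P R (Q * s)} ∪
        {x | Y * x ∈ Zone c0 m0 Q G ∧ ¬ Good a b w α P R (Q * (Y * x))}) := by
      refine hX.mono fun x hx => ?_
      by_contra h2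
      apply hc
      refine ⟨x, hx.2.2, ?_, ?_⟩
      · by_contra h3; exact h2 (Or.inl ⟨hx.1, h3⟩)
      · by_contra h3; exact h2 (Or.inr ⟨hx.2.1, h3⟩)
    exact h1.union.elim hbad hbad2
  obtain ⟨n0, d, h, hd1, hdP, hlo, hhi, hap, ha⟩ := hg1
  obtain ⟨n1, d1, h1, hd11, hd1P, hlo1, hhi1, hap1, ha1⟩ := hg2
  obtain ⟨hle, hp, hm⟩ := hx d hdP
  obtain ⟨xm, rfl⟩ : ∃ xm, x = xm + d * v := ⟨x - d * v, by omega⟩
  rw [Nat.add_sub_cancel] at hm
  have b1 : Q * (d * v) ≤ Q * (P * v) := Nat.mul_le_mul_left _ (Nat.mul_le_mul_right _ hdP)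
  have b2 : Q * (xm + d * v) = Q * xm + Q * (d * v) := by ring
  have b3 : Q * (xm + d * v + d * v) = Q * xm + Q * (d * v) + Q * (d * v) := by ring
  obtain ⟨t1, t2⟩ := loc_type hb hap (V := Q * xm) (by omega) (by omega)
  obtain ⟨t3, t4⟩ := loc_type hb hap (V := Q * (xm + d * v + d * v)) (by omega) (by omega)
  obtain ⟨t5, t6⟩ := loc_type hb hap1 (V := Q * (Y * (xm + d * v))) (by omega) (by omega)
  simp only [hK, Prod.mk.injEq, t1, t2, t3, t4, t5, t6] at hp hm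
  obtain ⟨c1, c2, c3, -⟩ := hp
  obtain ⟨-, -, -, c4⟩ := hm
  have r1 : b n0 % d < d := Nat.mod_lt _ hd1
  have r2 : b n1 % d1 < d1 := Nat.mod_lt _ hd11
  have hdd : d1 = d := by omega
  subst hdd
  have hrr : b n1 % d1 = b n0 % d1 := by omega
  rw [hrr] at c3 c4
  set ρ := b n0 % d1 with hρ
  have hYY : 1 + 2 * Q * (y + Y0 * v) = Y0 * Y := by rw [hY0, hY]; ring
  rw [hYY] at c3 c4
  rw [← hY0] at c3 c4
  obtain ⟨q, hq⟩ : d1 ∣ Q := Nat.dvd_factorial hd1 hdP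
  have b4 : Y0 * Y * ρ ≤ Y0 * Y * P := Nat.mul_le_mul_left _ (by omega)
  have b5 : Y0 * ρ ≤ Y0 * Y * ρ :=
    Nat.mul_le_mul_right _ (Nat.le_mul_of_pos_right _ (by omega))
  have m1 : (Q * xm + Y0 * ρ) % d1 = b n0 % d1 := by
    have : Q * xm + Y0 * ρ = ρ + d1 * (q * xm + 2 * q * y * ρ) := by rw [hY0, hq]; ring
    rw [this, Nat.add_mul_mod_self_left, hρ, Nat.mod_mod]
  have m2 : (Q * (Y * (xm + d1 * v)) + Y0 * Y * ρ) % d1 = b n1 % d1 := by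
    have : Q * (Y * (xm + d1 * v)) + Y0 * Y * ρ =
        ρ + d1 * (q * (Y * (xm + d1 * v)) + 2 * q * (y + Y0 * v) * ρ) := by
      rw [← hYY, hq]; ring
    rw [this, Nat.add_mul_mod_self_left, hrr, hρ, Nat.mod_mod]
  obtain ⟨m, hmh, hmZ⟩ := loc_pt (h := h) hd1 (by omega) (by omega) m1
  obtain ⟨i, hih, hiZ⟩ := loc_pt (h := h1) hd1 (by omega) (by omega) m2
  have b6 : (m + 2 * Q * v) * d1 = m * d1 + Q * (d1 * v) + Q * (d1 * v) := by ring
  have hkh : m + 2 * Q * v ≤ h := Nat.le_of_mul_le_mul_right (by omega) hd1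
  have n2 : Q * (xm + d1 * v + d1 * v) + Y0 * ρ = b (n0 + (m + 2 * Q * v)) := by
    rw [hap _ (by omega)]; omega
  have n3 : Q * xm + Y0 * ρ = b (n0 + m) := by rw [hap _ (by omega)]; omega
  have n4 : Q * (Y * (xm + d1 * v)) + Y0 * Y * ρ = b (n1 + i) := by
    rw [hap1 _ (by omega)]; omega
  rw [n2, n4, nu_b hb, nu_b hb] at c3
  rw [n3, n4, nu_b hb, nu_b hb] at c4
  have hQv : 1 ≤ Q * v := Nat.mul_pos hQ hv
  have e2Q : 2 * Q * v = 2 * (Q * v) := by ring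
  have hid : b (n1 + i) = Y * (b (n0 + m) + Q * (d1 * v)) := by rw [← n4, ← n3]; ring
  refine ⟨n1 + i, n0 + m, n0 + (m + 2 * Q * v), by omega, hb.lt_iff_lt.mp ?_, ?_⟩
  · have e1 : b (n0 + (m + 2 * Q * v)) = b (n0 + m) + Q * (d1 * v) + Q * (d1 * v) := by omega
    have e3 : 1 ≤ Q * (d1 * v) := Nat.mul_pos hQ (Nat.mul_pos hd1 hv)
    have e4 : 3 * (b (n0 + m) + Q * (d1 * v)) ≤ Y * (b (n0 + m) + Q * (d1 * v)) :=
      Nat.mul_le_mul_right _ (by omega)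
    omega
  · have s1 : ∑ e ∈ Finset.Icc (n0 + m) (n0 + (m + 2 * Q * v)), a e =
        ∑ e ∈ range Y, a (n0 + m + e) := by
      rw [← Finset.Ico_add_one_right_eq_Icc, Finset.sum_Ico_eq_sum_range]
      have : n0 + (m + 2 * Q * v) + 1 - (n0 + m) = Y := by omega
      rw [this]
    have s2 := tele (m := m) hap ha Y (by omega)
    have s3 := ha1 i hih
    have s4 := abs_lt.mp (hclose _ _ c3)
    have s5 := abs_lt.mp (hclose _ _ c4)
    have s6 : n0 + m + Y = n0 + (m + 2 * Q * v) + 1 := by omega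
    have s7 : (b (n1 + i) : ℝ) =
        Y * ((b n0 : ℝ) + m * d1) + d1 * ((Y : ℝ) * (Y - 1) / 2) := by
      rw [hid, hap m (by omega), hY]; push_cast; ring
    rw [s1]
    rw [s6, ← s7] at s2
    have s8 : ((a (n1 + i) : ℕ) : ℝ) < ((∑ e ∈ range Y, a (n0 + m + e) : ℕ) : ℝ) + 1 := by
      linarith
    have s9 : ((∑ e ∈ range Y, a (n0 + m + e) : ℕ) : ℝ) < ((a (n1 + i) : ℕ) : ℝ) + 1 := by
      linarith
    have s10 : a (n1 + i) < (∑ e ∈ range Y, a (n0 + m + e)) + 1 := by exact_mod_cast s8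
    have s11 : (∑ e ∈ range Y, a (n0 + m + e)) < a (n1 + i) + 1 := by exact_mod_cast s9
    omega

end Pool.Agent.MP_d19b84_nt.H13
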